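import Pool.Agent.T3h90.CI.Univ
import Pool.Agent.N846.HU.Main
import Pool.Agent.N846.ZD.Moll
import Pool.Agent.N846.ZD.Mb
import Pool.Agent.N846.ZD.Cvx
import Pool.Agent.N846.ZD.Tc

/-! All parts together. -/

set_option autoImplicit false

namespace Pool.Agent.T3h90.CI

open Complex NumberField IsDedekindDomain
open Pool.Agent.N846.DU (GLFamily VX Nv)
open Pool.Agent.N846.LM (Twists)
open Pool.Agent.N846.ZD (pow moll mb conv cvx tc)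
open Pool.Agent.N846.HU (blk lft dia lva det pl)

theorem range_eq {n : ℕ} (hn : 1 ≤ n) : 3 / 4 - (7 * (n : ℝ) + 1) / (4 * (8 * n ^ 2 + n - 1)) =
    (2 * (n : ℝ) - 1) * (3 * n + 1) / (8 * n ^ 2 + n - 1) := by
  have hn1 : (1 : ℝ) ≤ n := by exact_mod_cast hn
  have h1 : (8 * (n : ℝ) ^ 2 + n - 1) ≠ 0 := by nlinarith
  rw [sub_eq_iff_eq_add, div_add_div _ _ h1 (mul_ne_zero four_ne_zero h1), div_eq_div_iff four_ne_zero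
    (mul_ne_zero h1 (mul_ne_zero four_ne_zero h1))]
  ring

theorem range_cmp {n : ℕ} (hn : 1 ≤ n) : 3 / 4 - (7 * (n : ℝ) + 1) / (4 * (8 * n ^ 2 + n - 1)) <
    3 / 4 - 1 / (6 * n + 4) := by
  have hn1 : (1 : ℝ) ≤ n := by exact_mod_cast hn
  refine sub_lt_sub_left ?_ _
  rw [div_lt_div_iff₀ (by linarith) (by nlinarith)]
  nlinarith

theorem main (K : Type) [Field K] [NumberField K] (n N n' N' N'' : ℕ) (hn : 1 ≤ n) {ε σ : ℝ} (hε : 0 < ε)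
    (hσ : 1 / 2 < σ) (hσ1 : σ ≤ 1) :
    (∀ j : ℕ, 1 ≤ j → ∃ A : ℝ, 1 ≤ A ∧
      ∀ (ι : Type) (S : ι → Finset (HeightOneSpectrum (𝓞 K)))
        (α : ι → HeightOneSpectrum (𝓞 K) → Fin n → ℂ) (u : ι → VX K → ℂ) (q : ι → ι → ℝ) (κ : ι → ι → Fin N → ℂ)
        (S' : Finset (HeightOneSpectrum (𝓞 K))) (α' : HeightOneSpectrum (𝓞 K) → Fin n' → ℂ) (w : VX K → ℂ) (q' : ℝ)
        (κ' : Fin N'' → ℂ) (qs : ι → ℝ) (μ : ι → Fin N' → ℂ) (L : ι → ℂ → ℂ),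
        GLFamily n N S α u q κ → Twists n' N' N'' u S' α' w q' κ' qs μ L →
        ∀ (T : Set ι) (s : ι → ℂ) (C Q Q' : ℝ), 1 ≤ C → 1 ≤ Q → C ^ j ≤ Q ^ 2 →
          q' * ∏ j, (1 + ‖κ' j‖) ≤ Q' → A ≤ C * Q * Q' → (∀ f ∈ T, ∏ v ∈ S f, Nv v ≤ C * Q * Q') →
          (∀ f ∈ T, qs f * ∏ j, (1 + ‖μ f j + (s f).im * I‖) ≤ C) →
          (∀ f ∈ T, ∀ g ∈ T, q f g * ∏ j, (1 + ‖κ f g j + ((s f).im - (s g).im) * I‖) ≤ Q) →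
          (∀ f ∈ T,
            (σ ≤ (s f).re ∧ ¬((C * Q * Q') ^ (-ε) ≤ ‖L f (s f)‖ ∧ ‖L f (s f)‖ ≤ (C * Q * Q') ^ ε)) ∨
            (1 / 2 ≤ (s f).re ∧ (s f).re ≤ σ ∧
              (C * Q * Q') ^ ε * Q ^ ((σ - (s f).re) / (j + 2 - 2 * σ)) < ‖L f (s f)‖)) →
          T.Finite ∧ (T.ncard : ℝ) ≤ (C * Q * Q') ^ ε * Q ^ (2 * (1 - σ) * (j + 1) / (j + 2 - 2 * σ))) ∧
    (∀ B Q' : ℝ, 1 ≤ B → 1 ≤ Q' → ∃ A c : ℝ, 1 ≤ A ∧ 0 < c ∧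
      ∀ (ι : Type) (S : ι → Finset (HeightOneSpectrum (𝓞 K)))
        (α : ι → HeightOneSpectrum (𝓞 K) → Fin n → ℂ) (u : ι → VX K → ℂ) (q : ι → ι → ℝ) (κ : ι → ι → Fin N → ℂ)
        (S' : Finset (HeightOneSpectrum (𝓞 K))) (α' : HeightOneSpectrum (𝓞 K) → Fin n' → ℂ) (w : VX K → ℂ) (q' : ℝ)
        (κ' : Fin N'' → ℂ) (qs : ι → ℝ) (μ : ι → Fin N' → ℂ) (L : ι → ℂ → ℂ) (C : ι → ℝ),
        GLFamily n N S α u q κ → Twists n' N' N'' u S' α' w q' κ' qs μ L → q' * ∏ j, (1 + ‖κ' j‖) ≤ Q' →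
        (∀ f, qs f * ∏ j, (1 + ‖μ f j‖) ≤ C f) → (∀ f, ∏ v ∈ S f, Nv v ≤ C f) →
        (∀ f g, q f g * ∏ j, (1 + ‖κ f g j‖) ≤ B * (C f * C g) ^ n) →
        ∀ X : ℝ, A ≤ X → ∃ E : Set ι, E.Finite ∧
          (E.ncard : ℝ) ≤ X ^ (2 * n * (4 * n + 1) * (1 - σ) / (2 * n + 1 - σ) + ε) ∧
          ∀ f, C f ≤ X → f ∉ E → ∀ s : ℂ, |s.im| ≤ X ^ c →
            (σ ≤ s.re → X ^ (-ε) ≤ ‖L f s‖ ∧ ‖L f s‖ ≤ X ^ ε) ∧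
            (1 / 2 ≤ s.re → s.re ≤ σ → ‖L f s‖ ≤ X ^ (n * (σ - s.re) / (2 * n + 1 - σ) + ε))) ∧
    (3 / 4 - (7 * (n : ℝ) + 1) / (4 * (8 * n ^ 2 + n - 1)) < σ →
      2 * (n : ℝ) * (4 * n + 1) * (1 - σ) / (2 * n + 1 - σ) < n + 1) := by
  refine ⟨fun j hj => ?_, fun B Q' hB hQ' => ?_, fun h => ?_⟩
  · exact both_set pow moll mb conv blk lft dia lva det pl cvx tc K n N n' N' N'' j hn hj hσ hσ1 hε
  · exact univ_set pow moll mb conv blk lft dia lva det pl cvx tc K n N n' N' N'' hn hσ hσ1 hε B Q' hB hQ'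
  · rw [range_eq hn] at h
    exact range_n hn h hσ1

end Pool.Agent.T3h90.CI
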