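import Pool.Agent.T3h90.CI.Mol
import Pool.Agent.N846.HU.CoreL
import Pool.Agent.N846.ZD.Lind

/-! Large values, all levels. -/

set_option autoImplicit false

namespace Pool.Agent.T3h90.CI

open Filter Topology Complex MeasureTheory Set NumberField IsDedekindDomain
open Pool.Agent.TH949.LT (TT Lam VV VV_nonneg VV_le)
open Pool.Agent.N846.DT (PairF co Uc co_abs summ_mono' summ_cs Lam_nonneg half_exp)
open Pool.Agent.N846.DU (VX LV Nv logRS RS GLFamily Rep LV_nonneg one_le_cond shift_cond S_LEFT S_DIAG)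
open Pool.Agent.N846.LM (Twists)
open Pool.Agent.N846.ZD (Ph Maj Supp S_POW S_CONV S_BLOCK S_CVX cut_summ absorb MM)
open Pool.Agent.N846.LV (S_LVD)
open Pool.Agent.N846.HU (S_DET S_PL count0)

/-- large values of the `L`-functions, for every real level -/
theorem lv_all (hPow : S_POW) (hConv : S_CONV) (hBl : S_BLOCK) (hL : S_LEFT) (hDi : S_DIAG) (hLvd : S_LVD)
    (hDet : S_DET) (hPl : S_PL)
    (K : Type) [Field K] [NumberField K] (n N n' N' N'' j : ℕ) (hn : 1 ≤ n) {ε : ℝ} (hε : 0 < ε) :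
    ∃ E₀ : ℝ, 1 ≤ E₀ ∧
    ∀ (ι : Type) [Fintype ι] (S : ι → Finset (HeightOneSpectrum (𝓞 K)))
      (α : ι → HeightOneSpectrum (𝓞 K) → Fin n → ℂ) (u : ι → VX K → ℂ) (q : ι → ι → ℝ) (κ : ι → ι → Fin N → ℂ)
      (S' : Finset (HeightOneSpectrum (𝓞 K))) (α' : HeightOneSpectrum (𝓞 K) → Fin n' → ℂ) (w : VX K → ℂ) (q' : ℝ)
      (κ' : Fin N'' → ℂ) (qs : ι → ℝ) (μ : ι → Fin N' → ℂ) (L : ι → ℂ → ℂ),
      GLFamily n N S α u q κ → Twists n' N' N'' u S' α' w q' κ' qs μ L →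
      ∀ (t : ι → ℝ) (s C Q Q' : ℝ), 1 ≤ C → 1 ≤ Q → q' * ∏ j, (1 + ‖κ' j‖) ≤ Q' →
        E₀ ≤ C * Q * Q' → (∀ f, ∏ v ∈ S f, Nv v ≤ C * Q * Q') →
        (∀ f, qs f * ∏ j, (1 + ‖μ f j + t f * I‖) ≤ C) →
        (∀ f g, q f g * ∏ j, (1 + ‖κ f g j + (t f - t g) * I‖) ≤ Q) →
        (∀ f, Real.exp s ≤ ‖L f (1 / 2 + t f * I)‖) →
        (Fintype.card ι : ℝ) ≤ Real.exp ((1 + 2 * j) * (ε * Real.log (C * Q * Q')) +
          max (j * (Real.log C / 2)) (Real.log Q) - 2 * j * s) := by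
  obtain ⟨E₁, hE₁1, h1⟩ := Pool.Agent.N846.HU.core0 hPow hConv hBl hL hDi hLvd hDet hPl K n N n' N' N'' j hn hε
  obtain ⟨E₂, hE₂1, h2⟩ := count0 hPow hConv hBl hL hDi hDet hPl K n N n' N' N'' hn hε
  refine ⟨max E₁ E₂, hE₁1.trans (le_max_left _ _), ?_⟩
  intro ι _ S α u q κ S' α' w q' κ' qs μ L h hT t s C Q Q' hC hQ hcQ' hGE hram hcC hcQ hlarge
  have hj0 : (0 : ℝ) ≤ j := Nat.cast_nonneg j
  rcases le_total (ε * Real.log (C * Q * Q')) s with hs | hs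
  · have h3 := h1 ι S α u q κ S' α' w q' κ' qs μ L h hT t (s - ε * Real.log (C * Q * Q')) C Q Q' (by linarith) hC
      hQ hcQ' ((le_max_left _ _).trans hGE) hram (fun f => by
        rw [add_sub_cancel]
        exact hlarge f) hcC hcQ
    refine h3.trans (Real.exp_le_exp.2 (le_of_eq ?_))
    ring
  · have h3 := h2 ι S α u q κ S' α' w q' κ' qs μ L h hT t C Q Q' hC hQ hcQ' ((le_max_right _ _).trans hGE) hram
      hcC hcQ
    refine h3.trans (Real.exp_le_exp.2 ?_)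
    have h4 := le_max_right (j * (Real.log C / 2)) (Real.log Q)
    have h5 : (j : ℝ) * s ≤ j * (ε * Real.log (C * Q * Q')) := mul_le_mul_of_nonneg_left hs hj0
    linarith

/-- large values of the mollifier, for every real level -/
theorem mol_all (hPow : S_POW) (hConv : S_CONV) (hBl : S_BLOCK) (hL : S_LEFT) (hDi : S_DIAG)
    (hDet : S_DET) (hPl : S_PL)
    (K : Type) [Field K] [NumberField K] (n N n' N' N'' : ℕ) (hn : 1 ≤ n) {ε : ℝ} (hε : 0 < ε) :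
    ∃ E₀ : ℝ, 1 ≤ E₀ ∧
    ∀ (ι : Type) [Fintype ι] (S : ι → Finset (HeightOneSpectrum (𝓞 K)))
      (α : ι → HeightOneSpectrum (𝓞 K) → Fin n → ℂ) (u : ι → VX K → ℂ) (q : ι → ι → ℝ) (κ : ι → ι → Fin N → ℂ)
      (S' : Finset (HeightOneSpectrum (𝓞 K))) (α' : HeightOneSpectrum (𝓞 K) → Fin n' → ℂ) (w : VX K → ℂ) (q' : ℝ)
      (κ' : Fin N'' → ℂ) (qs : ι → ℝ) (μ : ι → Fin N' → ℂ) (L : ι → ℂ → ℂ),
      GLFamily n N S α u q κ → Twists n' N' N'' u S' α' w q' κ' qs μ L →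
      ∀ (t : ι → ℝ) (s C Q Q' x : ℝ), 1 ≤ C → 1 ≤ Q → q' * ∏ j, (1 + ‖κ' j‖) ≤ Q' →
        E₀ ≤ C * Q * Q' → (∀ f, ∏ v ∈ S f, Nv v ≤ C * Q * Q') →
        (∀ f, qs f * ∏ j, (1 + ‖μ f j + t f * I‖) ≤ C) →
        (∀ f g, q f g * ∏ j, (1 + ‖κ f g j + (t f - t g) * I‖) ≤ Q) →
        Real.log C ≤ 2 * x → Real.log Q ≤ x → x ≤ 2 * Real.log (C * Q * Q') →
        (∀ f, Real.exp s ≤ ‖MM LV x (u f) w (1 / 2 + t f * I)‖) →
        (Fintype.card ι : ℝ) ≤ Real.exp (3 * (ε * Real.log (C * Q * Q')) + x - 2 * s) := by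
  obtain ⟨E₁, hE₁1, h1⟩ := mol_large hPow hConv hBl hL hDi hDet hPl K n N n' N' N'' hn hε
  obtain ⟨E₂, hE₂1, h2⟩ := count0 hPow hConv hBl hL hDi hDet hPl K n N n' N' N'' hn hε
  refine ⟨max E₁ E₂, hE₁1.trans (le_max_left _ _), ?_⟩
  intro ι _ S α u q κ S' α' w q' κ' qs μ L h hT t s C Q Q' x hC hQ hcQ' hGE hram hcC hcQ hxC hxQ hxG hlarge
  rcases le_total (ε * Real.log (C * Q * Q')) s with hs | hs
  · have h3 := h1 ι S α u q κ S' α' w q' κ' qs μ L h hT t (s - ε * Real.log (C * Q * Q')) C Q Q' x (by linarith) hC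
      hQ hcQ' ((le_max_left _ _).trans hGE) hram hcC hcQ hxC hxQ hxG (fun f => by
        rw [add_sub_cancel]
        exact hlarge f)
    refine h3.trans (Real.exp_le_exp.2 (le_of_eq ?_))
    ring
  · have h3 := h2 ι S α u q κ S' α' w q' κ' qs μ L h hT t C Q Q' hC hQ hcQ' ((le_max_right _ _).trans hGE) hram
      hcC hcQ
    refine h3.trans (Real.exp_le_exp.2 ?_)
    linarith

/-- the crude bound on the critical line -/
theorem line (hL : S_LEFT) (hDi : S_DIAG) (hCv : S_CVX) (K : Type) [Field K]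
    [NumberField K] (n N n' N' N'' : ℕ) : ∃ A : ℝ, 1 ≤ A ∧
    ∀ (ι : Type) (S : ι → Finset (HeightOneSpectrum (𝓞 K)))
      (α : ι → HeightOneSpectrum (𝓞 K) → Fin n → ℂ) (u : ι → VX K → ℂ) (q : ι → ι → ℝ) (κ : ι → ι → Fin N → ℂ)
      (S' : Finset (HeightOneSpectrum (𝓞 K))) (α' : HeightOneSpectrum (𝓞 K) → Fin n' → ℂ) (w : VX K → ℂ) (q' : ℝ)
      (κ' : Fin N'' → ℂ) (qs : ι → ℝ) (μ : ι → Fin N' → ℂ) (L : ι → ℂ → ℂ),
      GLFamily n N S α u q κ → Twists n' N' N'' u S' α' w q' κ' qs μ L →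
      ∀ (f : ι) (t C Q Q' : ℝ), 1 ≤ C → 1 ≤ Q → q' * ∏ j, (1 + ‖κ' j‖) ≤ Q' →
        qs f * ∏ j, (1 + ‖μ f j + t * I‖) ≤ C → q f f * ∏ j, (1 + ‖κ f f j‖) ≤ Q → A ≤ C * Q * Q' →
        ∀ (s : ℂ), -1 ≤ s.re → s.re ≤ 5 / 4 →
          ‖L f s‖ ≤ Real.exp (4 * Real.log (C * Q * Q')) * (1 + |s.im - t|) ^ (4 * (N' : ℝ)) := by
  obtain ⟨A₀, hA₀1, hA₀⟩ := Pool.Agent.N846.ZD.strip hL hDi hCv K n N n' N' N'' one_pos
  refine ⟨A₀, hA₀1, ?_⟩
  intro ι S α u q κ S' α' w q' κ' qs μ L h hT f t C Q Q' hC hQ hcQ' hcC hcQ hAG s hs1 hs2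
  have hC0 : 0 < C := by linarith
  have hQ0 : 0 < Q := by linarith
  have hQ'1 : 1 ≤ Q' := by
    have h1 := one_le_cond (κ := κ') hT.self.one_le 0
    simp only [add_zero] at h1
    linarith
  have hQ'0 : 0 < Q' := by linarith
  have hqs1 := (hT.rs f).one_le
  have hG1 : 1 ≤ C * Q * Q' := hA₀1.trans hAG
  have hG0 : 0 < C * Q * Q' := by linarith
  obtain ⟨v, hv⟩ : ∃ v : ℝ, v = s.im - t := ⟨_, rfl⟩
  rw [← hv]
  have hcond : qs f * ∏ j, (1 + ‖μ f j + ((t + v : ℝ) : ℂ) * I‖) ≤ C * (1 + |v|) ^ N' := by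
    have h3 := shift_cond (κ := μ f) hqs1 (z := (t : ℂ) * I) (w := 0) (c := 0) (by simp) v
    rw [add_zero, one_pow, one_mul] at h3
    refine le_trans (le_of_eq ?_) (h3.trans (mul_le_mul_of_nonneg_right hcC (by positivity)))
    congr 1
    refine Finset.prod_congr rfl fun j _ => ?_
    congr 2
    push_cast
    ring
  have hv1 : (1 : ℝ) ≤ (1 + |v|) ^ N' := one_le_pow₀ (by linarith [abs_nonneg v])
  have hCv1 : 1 ≤ C * (1 + |v|) ^ N' := by nlinarith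
  have hbig : C * Q * Q' ≤ C * (1 + |v|) ^ N' * Q * Q' := by
    have : C * (1 + |v|) ^ N' * Q * Q' = C * Q * Q' * (1 + |v|) ^ N' := by ring
    rw [this]
    exact le_mul_of_one_le_right hG0.le hv1
  obtain ⟨h6, -, -⟩ := hA₀ ι S α u q κ S' α' w q' κ' qs μ L h hT f (t + v) (C * (1 + |v|) ^ N') Q Q' hCv1 hQ
    hcQ' hcond hcQ (hAG.trans hbig)
  refine (h6 s hs1 hs2 ?_).trans (le_of_eq ?_)
  · rw [hv]
    simp
  · rw [show C * (1 + |v|) ^ N' * Q * Q' = C * Q * Q' * (1 + |v|) ^ N' by ring,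
      Real.mul_rpow hG0.le (by positivity), ← Real.rpow_natCast (1 + |v|) N', ← Real.rpow_mul (by positivity)]
    rw [Real.rpow_def_of_pos hG0]
    ring_nf

end Pool.Agent.T3h90.CI
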