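import Pool.Agent.N846.ZD.Detect
import Pool.Agent.N846.ZD.Off

/-!
# Detection of zeros with an integral on the critical line
-/

set_option autoImplicit false

namespace Pool.Agent.T3h90.CI

open Complex MeasureTheory
open Pool.Agent.TH949.LT (TT Lam VV VV_nonneg VV_le real_exp_sum)
open Pool.Agent.N846.DT (PairF co Uc VV_half term_norm' Uc_empty Lam_empty Lam_nonneg summ_mono')
open Pool.Agent.N846.ZD
open Pool.Agent.N846.ZD.Detect

/-- the smoothed sum at a zero, the integral on the critical line -/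
theorem off2 {σ A : ℝ} (hσ : 1 / 2 < σ) (hA : 0 ≤ A) : ∃ C : ℝ, 0 < C ∧
    ∀ (ι : Type) [Countable ι] (c : ι → ℂ) (Λ : ι → ℝ) (F : ℂ → ℂ) (s0 : ℂ) (B y : ℝ), (∀ l, 0 ≤ Λ l) →
      Differentiable ℂ F → (∀ a b : ℝ, ∃ C' A' : ℝ, ∀ s : ℂ, a ≤ s.re → s.re ≤ b → ‖F s‖ ≤ C' * (1 + |s.im|) ^ A') →
      (Summable fun l => ‖c l‖ * Real.exp (-(3 * Λ l))) →
      (∀ s : ℂ, 3 ≤ s.re → HasSum (fun l => c l * Complex.exp (-(s * Λ l))) (F s)) →
      σ ≤ s0.re → s0.re ≤ 1 → F s0 = 0 → 0 ≤ B → 0 ≤ y →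
      (∀ v : ℝ, ‖F (((1 / 2 : ℝ) : ℂ) + (s0.im + v : ℝ) * I)‖ ≤ B * (1 + |v|) ^ A) →
      ∃ T : ℂ, HasSum (fun l => c l * Complex.exp (-(s0 * Λ l)) * VV (y - Λ l)) T ∧
        ‖T‖ ≤ C * B * Real.exp (-((σ - 1 / 2) * y)) := by
  obtain ⟨δ, hδ⟩ : ∃ δ : ℝ, δ = (σ - 1 / 2) / 2 := ⟨_, rfl⟩
  have hδ0 : 0 < δ := by rw [hδ]; linarith
  have hJ := Pool.Agent.N846.DT.JK_nonneg A
  refine ⟨Real.exp ((δ + 1) ^ 2) / δ * Pool.Agent.N846.DT.JK A + 1, by positivity, ?_⟩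
  intro ι _ c Λ F s0 B y hΛ hdiff hgrowth hs hF h0 h01 hz hB0 hy0 hB
  obtain ⟨e, he⟩ : ∃ e : ℝ, e = 1 / 2 + δ := ⟨_, rfl⟩
  have he1 : e ≤ σ := by rw [he, hδ]; linarith
  have hsub : ∀ s : ℂ, ((s + (e : ℂ)).re) = s.re + e := fun s => by simp
  have hsum : Summable fun l => ‖c l * cexp (-((e : ℂ) * Λ l))‖ * Real.exp (-(((s0 - (e : ℂ)).re + 3) * Λ l)) := by
    refine (summ_mono' hΛ (fun l => norm_nonneg (c l)) (by linarith : (3 : ℝ) ≤ s0.re + 3) hs).congr fun l => ?_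
    rw [norm_mul, Complex.norm_exp, mul_assoc, ← Real.exp_add]
    congr 2
    simp
    ring
  obtain ⟨T, hT, hTn⟩ := OffP.off_core (c := fun l => c l * cexp (-((e : ℂ) * Λ l))) (Λ := Λ)
    (F := fun s => F (s + (e : ℂ))) (s0 := s0 - (e : ℂ)) (σ₀ := δ) (B := B) (K := A) (y := y)
    (hdiff.comp (by fun_prop)) (by
      intro a b
      obtain ⟨C', A', h⟩ := hgrowth (a + e) (b + e)
      refine ⟨C', A', fun s h1 h2 => ?_⟩
      have h3 := h (s + (e : ℂ)) (by rw [hsub]; linarith) (by rw [hsub]; linarith)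
      simpa using h3) (by simp; linarith) (by simp; linarith) hsum (by
      intro s hs'
      have h3 := hF (s + (e : ℂ)) (by
        rw [hsub, hs']
        simp
        linarith)
      refine h3.congr_fun fun l => ?_
      rw [mul_assoc, ← Complex.exp_add]
      congr 2
      ring) (by simpa using hz) hδ0 hB0 (by
      intro v
      have h3 := hB v
      have e1 : (((-δ : ℝ) : ℂ) + ((s0 - (e : ℂ)).im + v : ℝ) * I) + (e : ℂ) =
          ((1 / 2 : ℝ) : ℂ) + (s0.im + v : ℝ) * I := by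
        apply Complex.ext
        · simp
          rw [he]
          ring
        · simp
      rw [e1]
      exact h3)
  refine ⟨T, ?_, ?_⟩
  · refine hT.congr_fun fun l => ?_
    have e3 : cexp (-((e : ℂ) * Λ l)) * cexp (-((s0 - (e : ℂ)) * Λ l)) = cexp (-(s0 * Λ l)) := by
      rw [← Complex.exp_add]
      congr 1
      ring
    rw [← e3]
    ring
  · refine hTn.trans ?_
    have h1 : Real.exp (-(δ + (s0 - (e : ℂ)).re) * y) ≤ Real.exp (-((σ - 1 / 2) * y)) := by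
      refine Real.exp_le_exp.2 ?_
      have h2 : (s0 - (e : ℂ)).re = s0.re - e := by simp
      rw [h2, he]
      nlinarith
    have h2 : 0 ≤ Real.exp ((δ + 1) ^ 2) / δ * Pool.Agent.N846.DT.JK A * B := by positivity
    refine (mul_le_mul_of_nonneg_left h1 h2).trans ?_
    have h3 : 0 ≤ B * Real.exp (-((σ - 1 / 2) * y)) := by positivity
    calc _ = Real.exp ((δ + 1) ^ 2) / δ * Pool.Agent.N846.DT.JK A * (B * Real.exp (-((σ - 1 / 2) * y))) := by ring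
      _ ≤ (Real.exp ((δ + 1) ^ 2) / δ * Pool.Agent.N846.DT.JK A + 1) * (B * Real.exp (-((σ - 1 / 2) * y))) :=
          mul_le_mul_of_nonneg_right (by linarith) h3
      _ = _ := by ring

/-- detection on the critical line -/
theorem detect2 (h2 : S_MB) {σ A : ℝ} (hσ : 1 / 2 < σ) (hA : 0 ≤ A) : ∃ C : ℝ, 0 < C ∧
    ∀ (X : Type) [Countable X] (u w : X → ℂ) (L : X → ℝ) (F : ℂ → ℂ) (co' : TT X → ℂ) (s0 : ℂ)
    (B c x y Y D a : ℝ), (∀ z, 0 ≤ L z) → PairF u w L F → F s0 = 0 → σ ≤ s0.re → s0.re ≤ 1 → 0 < c → c ≤ 1 / 4 →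
    (Summable fun z => ‖u z‖ * ‖w z‖ * Real.exp (-((1 + c) * L z))) →
    Real.exp (∑' z, ‖u z‖ * ‖w z‖ * Real.exp (-((1 + c) * L z))) ≤ D → 0 ≤ x → 0 ≤ y → 2 ≤ a →
    0 ≤ B → (∀ v : ℝ, ‖F (((1 / 2 : ℝ) : ℂ) + (s0.im + v : ℝ) * I) *
      MM L x u w (((1 / 2 : ℝ) : ℂ) + (s0.im + v : ℝ) * I)‖ ≤ B * (1 + |v|) ^ A) →
    Maj w 2 co' → (∀ l : TT X, l.1 = 0 → co' l = 1) → (∀ l : TT X, l.1 ≠ 0 → Lam L l ≤ x → co' l = 0) →
    (∀ s : ℂ, (Summable fun z => ‖u z‖ * ‖w z‖ * Real.exp (-(s.re * L z))) →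
      HasSum (fun l : TT X => Uc u l * co' l * Complex.exp (-(s * Lam L l)))
        (Complex.exp (∑' z, u z * (starRingEnd ℂ) (w z) * Complex.exp (-(s * (L z : ℂ)))) * MM L x u w s)) →
    C * B * Real.exp (-((σ - 1 / 2) * y)) ≤ 1 / 8 →
    D ^ 2 * Real.exp (a ^ 2 + a * y - (a - 1) * Y) ≤ 1 / 8 →
    1 / 4 ≤ ‖∑' l : TT X, if x < Lam L l ∧ Lam L l ≤ Y then
      Uc u l * (co' l * VV (y - Lam L l)) * Complex.exp (-(s0 * Lam L l)) else 0‖ := by
  classical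
  obtain ⟨C, hC, hoff⟩ := off2 hσ hA
  refine ⟨C, hC, ?_⟩
  intro X _ u w L F co' s0 B c x y Y D a hL hF hF0 hσs hs1 hc hc4 hs hD hx hy ha hB0 hB hM hco0 hcox hMoll
    hcond1 hcond2
  have hσ' : 1 / 2 ≤ σ := hσ.le
  obtain ⟨D₀, hD₀⟩ : ∃ D₀ : ℝ, D₀ = Real.exp (∑' z, ‖u z‖ * ‖w z‖ * Real.exp (-((1 + c) * L z))) :=
    ⟨_, rfl⟩
  rw [← hD₀] at hD
  have hD₀0 : 0 < D₀ := by rw [hD₀]; exact Real.exp_pos _
  obtain ⟨hMd, hMb⟩ := h2 X u w L x (1 + c) hL hx hs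
  rw [← hD₀] at hMb
  have hw0 : ∀ z, 0 ≤ ‖u z‖ * ‖w z‖ := fun z => by positivity
  -- the function
  obtain ⟨G, hG⟩ : ∃ G : ℂ → ℂ, G = fun s => F s * MM L x u w s := ⟨_, rfl⟩
  have hGd : Differentiable ℂ G := by rw [hG]; exact hF.diff.mul hMd
  have hGg : ∀ a b : ℝ, ∃ C' A' : ℝ, ∀ s : ℂ, a ≤ s.re → s.re ≤ b →
      ‖G s‖ ≤ C' * (1 + |s.im|) ^ A' := by
    intro a b
    obtain ⟨C', A', h⟩ := hF.growth a b
    refine ⟨C' * (Real.exp (max (1 + c - a) 0 * x) * D₀), A', fun s ha hb => ?_⟩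
    rw [hG]
    simp only
    rw [norm_mul]
    have h3 := h s ha hb
    have h4 : ‖MM L x u w s‖ ≤ Real.exp (max (1 + c - a) 0 * x) * D₀ := by
      refine (hMb s).trans (mul_le_mul_of_nonneg_right (Real.exp_le_exp.2 ?_) hD₀0.le)
      exact mul_le_mul_of_nonneg_right (max_le_max (by linarith) le_rfl) hx
    calc ‖F s‖ * ‖MM L x u w s‖ ≤ (C' * (1 + |s.im|) ^ A') *
          (Real.exp (max (1 + c - a) 0 * x) * D₀) :=
          mul_le_mul h3 h4 (norm_nonneg _) ((norm_nonneg _).trans h3)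
      _ = _ := by ring
  have hsre : ∀ s : ℂ, 3 ≤ s.re → Summable fun z => ‖u z‖ * ‖w z‖ * Real.exp (-(s.re * L z)) :=
    fun s h => summ_mono' hL hw0 (by linarith) hs
  have hGs : ∀ s : ℂ, 3 ≤ s.re → HasSum (fun l : TT X => Uc u l * co' l * cexp (-(s * Lam L l)))
      (G s) := by
    intro s h
    have h3 := hMoll s (hsre s h)
    rw [← hF.eq s h] at h3
    rw [hG]
    exact h3
  have hsum3 : Summable fun l : TT X => ‖Uc u l * co' l‖ * Real.exp (-(3 * Lam L l)) := by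
    have h3 := (hGs 3 (by norm_num)).summable.norm
    refine h3.congr fun l => ?_
    rw [term_norm']
    norm_num
  obtain ⟨T, hT, hTn⟩ := hoff (TT X) (fun l => Uc u l * co' l) (Lam L) G s0 B y (Lam_nonneg hL) hGd hGg hsum3 hGs
    hσs hs1 (by rw [hG]; simp only; rw [hF0, zero_mul]) hB0 hy (by rw [hG]; exact hB)
  have hT8 : ‖T‖ ≤ 1 / 8 := hTn.trans hcond1
  -- the pieces
  obtain ⟨t, ht⟩ : ∃ t : TT X → ℂ, t = fun l => Uc u l * co' l * cexp (-(s0 * Lam L l)) *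
    VV (y - Lam L l) := ⟨_, rfl⟩
  rw [← ht] at hT
  obtain ⟨m, hm⟩ : ∃ m : TT X → ℂ, m = fun l => if x < Lam L l ∧ Lam L l ≤ Y then
      Uc u l * (co' l * VV (y - Lam L l)) * Complex.exp (-(s0 * Lam L l)) else 0 := ⟨_, rfl⟩
  rw [← hm]
  have hx0 : Fin 0 → X := fun i => i.elim0
  obtain ⟨l0, hl0⟩ : ∃ l0 : TT X, l0 = ⟨0, hx0⟩ := ⟨_, rfl⟩
  have hl0u : ∀ l : TT X, l.1 = 0 → l = l0 := by
    rintro ⟨k, f⟩ hk
    simp only at hk
    subst hk
    rw [hl0]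
    congr 1
    exact Subsingleton.elim _ _
  have hLam0 : Lam L l0 = 0 := by rw [hl0]; exact Lam_empty L hx0
  have ht0 : t l0 = VV y := by
    rw [ht]
    simp only
    rw [hLam0, hco0 l0 (by rw [hl0]), hl0, Uc_empty]
    simp
  have hm0 : m l0 = 0 := by
    rw [hm]
    simp only
    rw [if_neg]
    rw [hLam0]
    intro h
    linarith [h.1]
  obtain ⟨r, hr⟩ : ∃ r : TT X → ℂ, r = fun l => t l - m l - (if l = l0 then (VV y : ℂ) else 0) :=
    ⟨_, rfl⟩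
  have hrb : ∀ l, ‖r l‖ ≤ Real.exp (a ^ 2 + a * y - (a - 1) * Y) / a *
      ((2 : ℝ) ^ l.1 * ‖Uc u l‖ * ‖Uc w l‖ / (l.1.factorial : ℝ) *
        Real.exp (-((1 + c) * Lam L l))) := by
    intro l
    have hpos : 0 ≤ Real.exp (a ^ 2 + a * y - (a - 1) * Y) / a *
      ((2 : ℝ) ^ l.1 * ‖Uc u l‖ * ‖Uc w l‖ / (l.1.factorial : ℝ) *
        Real.exp (-((1 + c) * Lam L l))) := by
      have : 0 < a := by linarith
      positivity
    rw [hr]
    simp only
    by_cases hl : l = l0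
    · rw [if_pos hl, hl, ht0, hm0, sub_zero, sub_self, norm_zero, ← hl]
      exact hpos
    · have hl1 : l.1 ≠ 0 := fun h => hl (hl0u l h)
      rw [if_neg hl, sub_zero]
      rcases le_or_gt (Lam L l) x with h3 | h3
      · have e1 : t l = 0 := by
          rw [ht]
          simp only
          rw [hcox l hl1 h3]
          simp
        have e2 : m l = 0 := by
          rw [hm]
          simp only
          rw [if_neg]
          intro h4
          linarith [h4.1]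
        rw [e1, e2, sub_zero, norm_zero]
        exact hpos
      · rcases le_or_gt (Lam L l) Y with h4 | h4
        · have e2 : m l = t l := by
            rw [hm, ht]
            simp only
            rw [if_pos ⟨h3, h4⟩]
            ring
          rw [e2, sub_self, norm_zero]
          exact hpos
        · have e2 : m l = 0 := by
            rw [hm]
            simp only
            rw [if_neg]
            intro h5
            linarith [h5.2]
          rw [e2, sub_zero, ht]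
          exact tail_term hL hM hc4 hσ' hσs ha h4
  have hg := two_sum hs
  rw [← hD₀] at hg
  have hgK := hg.mul_left (Real.exp (a ^ 2 + a * y - (a - 1) * Y) / a)
  have hrs : Summable fun l => ‖r l‖ :=
    Summable.of_nonneg_of_le (fun l => norm_nonneg _) hrb hgK.summable
  have hR : ‖∑' l, r l‖ ≤ 1 / 16 := by
    refine (norm_tsum_le_tsum_norm hrs).trans ((hrs.tsum_le_tsum hrb hgK.summable).trans ?_)
    rw [hgK.tsum_eq]
    have ha0 : 0 < a := by linarith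
    have h3 : D₀ ^ 2 ≤ D ^ 2 := pow_le_pow_left₀ hD₀0.le hD 2
    have h4 : Real.exp (a ^ 2 + a * y - (a - 1) * Y) / a * D₀ ^ 2 ≤
        (D ^ 2 * Real.exp (a ^ 2 + a * y - (a - 1) * Y)) / a := by
      rw [div_mul_eq_mul_div]
      refine div_le_div_of_nonneg_right ?_ ha0.le
      rw [mul_comm]
      exact mul_le_mul_of_nonneg_right h3 (Real.exp_pos _).le
    refine h4.trans ?_
    rw [div_le_iff₀ ha0]
    linarith
  have hone : HasSum (fun l : TT X => if l = l0 then (VV y : ℂ) else 0) (VV y : ℂ) :=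
    hasSum_ite_eq l0 (VV y : ℂ)
  have hmS : HasSum m (T - ∑' l, r l - (VV y : ℂ)) := by
    have h3 := (hT.sub hrs.of_norm.hasSum).sub hone
    refine h3.congr_fun fun l => ?_
    rw [hr]
    ring
  rw [hmS.tsum_eq]
  have hV := VV_half hy
  have h5 : ‖(VV y : ℂ)‖ = VV y := by
    rw [Complex.norm_real, Real.norm_of_nonneg (VV_nonneg _)]
  have h6 : ‖(VV y : ℂ)‖ ≤ ‖T - ∑' l, r l - (VV y : ℂ)‖ + ‖T‖ + ‖∑' l, r l‖ := by
    have e : (VV y : ℂ) = -(T - ∑' l, r l - (VV y : ℂ)) + T - ∑' l, r l := by ring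
    calc ‖(VV y : ℂ)‖ = ‖-(T - ∑' l, r l - (VV y : ℂ)) + T - ∑' l, r l‖ := by rw [← e]
      _ ≤ ‖-(T - ∑' l, r l - (VV y : ℂ)) + T‖ + ‖∑' l, r l‖ := norm_sub_le _ _
      _ ≤ ‖-(T - ∑' l, r l - (VV y : ℂ))‖ + ‖T‖ + ‖∑' l, r l‖ := by
          gcongr
          exact norm_add_le _ _
      _ = _ := by rw [norm_neg]
  rw [h5] at h6
  linarith


end Pool.Agent.T3h90.CI
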