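import Pool.Agent.N846.ZD.Pig
import Pool.Agent.N846.ZD.Par

/-! The members whose zero is detected by a long block. -/

set_option autoImplicit false

namespace Pool.Agent.T3h90.CI

open Filter Topology Complex MeasureTheory Set NumberField IsDedekindDomain
open Pool.Agent.TH949.LT (TT Lam VV VV_nonneg VV_le)
open Pool.Agent.N846.DT (PairF co Uc co_abs summ_mono' summ_cs Lam_nonneg half_exp)
open Pool.Agent.N846.DU (VX LV logRS RS GLFamily Rep LV_nonneg one_le_cond shift_cond S_LEFT S_DIAG)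
open Pool.Agent.N846.LM (Twists)
open Pool.Agent.N846.ZD (Ph Maj Supp blk blk_maj blk_supp cut_summ real_block)

/-- one block beyond the conductor -/
theorem one_long {σ₀ c η : ℝ} {Cb A₀ : ℝ} (hη : 0 < η)
    (hBlk : ∀ (X ι : Type) [Countable X] [Fintype ι] (u : ι → X → ℂ) (L : X → ℝ) (s : ι → ℂ) (F : ι → ι → ℂ → ℂ)
      (w : X → ℂ) (k : ℕ) (b : TT X → ℂ) (a r : ℕ) (σ D D' B V : ℝ), (∀ x, 0 ≤ L x) → 1 / 2 ≤ σ →
      (∀ f, σ ≤ (s f).re) → (∀ f, (s f).re ≤ 1) →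
      (∀ f, Summable fun x => ‖u f x‖ ^ 2 * Real.exp (-((1 + c) * L x))) →
      (∀ f, Real.exp (∑' x, ‖u f x‖ ^ 2 * Real.exp (-((1 + c) * L x))) ≤ D) →
      (Summable fun x => ‖w x‖ ^ 2 * Real.exp (-((1 + 2 * c) * L x))) →
      Real.exp (∑' x, ‖w x‖ ^ 2 * Real.exp (-((1 + 2 * c) * L x))) ≤ D' →
      (∀ f g, f ≠ g → PairF (u f) (u g) L (F f g)) → 0 ≤ B →
      (∀ f g, f ≠ g → ∀ v : ℝ, ‖F f g (((-σ₀ : ℝ) : ℂ) + (((s f).im - (s g).im) + v : ℝ) * I)‖ ≤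
        B * (1 + |v|) ^ A₀) →
      Maj w k b → k ≤ 2 * 1 → Supp L b a (a + r) → r ≤ 1 → 0 ≤ V → 0 ≤ D → (∀ f, V ≤ ‖Ph L b (u f) (s f)‖) →
      Fintype.card ι * V ^ 2 ≤ Cb * (D * Real.exp ((1 + c) * a) + Fintype.card ι * B * Real.exp (-(σ₀ * a))) *
        (Real.exp ((1 - 2 * σ + 2 * c) * a) * D' ^ (4 * 1 ^ 2)))
    {X ι : Type} [Countable X] [Fintype ι] {u : ι → X → ℂ} {L : X → ℝ} {s : ι → ℂ} {F : ι → ι → ℂ → ℂ}
    {w : X → ℂ} {cf : TT X → ℂ} {σ M LQ x y Y : ℝ} {r : ℕ} (hL : ∀ z, 0 ≤ L z) (hσ : 1 / 2 ≤ σ)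
    (hM : 0 ≤ M) (hs1 : ∀ f, σ ≤ (s f).re) (hs2 : ∀ f, (s f).re ≤ 1)
    (hsu : ∀ f, Summable fun x => ‖u f x‖ ^ 2 * Real.exp (-((1 + c) * L x)))
    (hD : ∀ f, Real.exp (∑' x, ‖u f x‖ ^ 2 * Real.exp (-((1 + c) * L x))) ≤ Real.exp (2 * η * M))
    (hsw : Summable fun x => ‖w x‖ ^ 2 * Real.exp (-((1 + 2 * c) * L x)))
    (hD' : Real.exp (∑' x, ‖w x‖ ^ 2 * Real.exp (-((1 + 2 * c) * L x))) ≤ Real.exp (2 * η * M))
    (hF : ∀ f g, f ≠ g → PairF (u f) (u g) L (F f g))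
    (hFb : ∀ f g, f ≠ g → ∀ v : ℝ, ‖F f g (((-σ₀ : ℝ) : ℂ) + (((s f).im - (s g).im) + v : ℝ) * I)‖ ≤
        Real.exp ((1 / 2 + σ₀) * LQ + 2 * η * M) * (1 + |v|) ^ A₀) (hcf : Maj w 2 cf)
    (hCbM : Cb ≤ Real.exp (η * M)) (h8 : 8 ≤ Real.exp (η * M))
    (hr : 14 * (η * M) + (1 / 2 + σ₀) * LQ ≤ (σ₀ + 2 * σ - 1 - 2 * c) * r)
    (hY : 4 * ((⌊Y⌋₊ : ℝ) + 1) ≤ Real.exp (η * M))
    (hlarge : ∀ f, 1 / (4 * ((⌊Y⌋₊ : ℝ) + 1)) ≤ ‖Ph L (blk L cf x y Y r) (u f) (s f)‖) :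
    (Fintype.card ι : ℝ) ≤ 2 * Real.exp (13 * (η * M) + (2 - 2 * σ + 3 * c) * r) := by
  obtain ⟨V₀, hV₀⟩ : ∃ V₀ : ℝ, V₀ = 1 / (4 * ((⌊Y⌋₊ : ℝ) + 1)) := ⟨_, rfl⟩
  have hV₀0 : 0 < V₀ := by rw [hV₀]; positivity
  have hV₀e : Real.exp (-(η * M)) ≤ V₀ := by
    rw [hV₀, Real.exp_neg, one_div]
    exact inv_anti₀ (by positivity) hY
  rw [← hV₀] at hlarge
  have hmain := hBlk X ι u L s F w 2 (blk L cf x y Y r) r 1 σ (Real.exp (2 * η * M)) (Real.exp (2 * η * M))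
    (Real.exp ((1 / 2 + σ₀) * LQ + 2 * η * M)) V₀ hL hσ hs1 hs2 hsu hD hsw hD' hF (Real.exp_pos _).le hFb
    (blk_maj hcf x y Y r) (by norm_num) (by
      have := blk_supp L cf x y Y r
      push_cast
      exact this) le_rfl hV₀0.le (Real.exp_pos _).le hlarge
  have hfin := real_block (J := 1) (a' := r) (σ := σ) (σ₀ := σ₀) (c := c) (η := η) (M := M) (LQ := LQ)
    (R := (Fintype.card ι : ℝ)) (Cb := Cb) (Nat.cast_nonneg _) (V := V₀) (by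
      push_cast
      rw [mul_one]
      exact hV₀e) hCbM h8 (by
      push_cast
      linarith) hmain
  refine hfin.trans (le_of_eq ?_)
  push_cast
  congr 2
  ring

end Pool.Agent.T3h90.CI
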