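import Pool.Agent.T3h90.CI.Par
import Pool.Agent.T3h90.CI.Det
import Pool.Agent.T3h90.CI.One
import Pool.Agent.T3h90.CI.All

/-! The density theorem, for large conductors. -/

set_option autoImplicit false

namespace Pool.Agent.T3h90.CI

open Filter Topology Complex MeasureTheory Set NumberField IsDedekindDomain
open Pool.Agent.TH949.LT (TT Lam VV VV_nonneg VV_le)
open Pool.Agent.N846.DT (PairF co Uc co_abs summ_mono' summ_cs Lam_nonneg half_exp)
open Pool.Agent.N846.DU (VX LV Nv logRS RS GLFamily Rep LV_nonneg one_le_cond shift_cond shift_cond' S_LEFT S_DIAG)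
open Pool.Agent.N846.LM (Twists)
open Pool.Agent.N846.ZD (Ph Maj Supp S_POW S_MOLL S_MB S_CONV S_BLOCK S_CVX cut_summ absorb MM data pig blk)
open Pool.Agent.N846.LV (S_LVD cross mono2)
open Pool.Agent.N846.HU (S_DET S_PL count0)

/-- the dichotomy for the value of the product on the critical line -/
theorem dich {a₂ A₀ M h h' : ℝ} (ha₂ : 0 < a₂) {g : ℝ → ℝ}
    (hg : ∀ v, g v ≤ Real.exp h' * (1 + |v|) ^ A₀) (hh : h' ≤ h + 8 * M) (hM : 0 ≤ M)
    (hsmall : ∀ v, |v| ≤ Real.exp (a₂ * M) → g v < Real.exp h) (hA₀ : 0 ≤ A₀) :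
    ∀ v, g v ≤ Real.exp h * (1 + |v|) ^ (A₀ + 8 / a₂) := by
  intro v
  have h1 : (1 : ℝ) ≤ 1 + |v| := by linarith [abs_nonneg v]
  have h80 : 0 ≤ 8 / a₂ := by positivity
  rcases le_or_gt |v| (Real.exp (a₂ * M)) with hv | hv
  · refine (hsmall v hv).le.trans ?_
    exact le_mul_of_one_le_right (Real.exp_pos _).le (Real.one_le_rpow h1 (by positivity))
  · refine (hg v).trans ?_
    have h2 : Real.exp (8 * M) ≤ (1 + |v|) ^ (8 / a₂) := by
      have h3 : Real.exp (a₂ * M) ^ (8 / a₂) ≤ (1 + |v|) ^ (8 / a₂) :=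
        Real.rpow_le_rpow (Real.exp_pos _).le (by linarith) h80
      rw [← Real.exp_mul] at h3
      refine le_trans (le_of_eq ?_) h3
      congr 1
      field_simp
    rw [Real.rpow_add (by linarith)]
    calc Real.exp h' * (1 + |v|) ^ A₀ ≤ Real.exp (h + 8 * M) * (1 + |v|) ^ A₀ :=
          mul_le_mul_of_nonneg_right (Real.exp_le_exp.2 hh) (by positivity)
      _ = Real.exp h * ((1 + |v|) ^ A₀ * Real.exp (8 * M)) := by
          rw [Real.exp_add]
          ring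
      _ ≤ _ := by
          refine mul_le_mul_of_nonneg_left ?_ (Real.exp_pos _).le
          exact mul_le_mul_of_nonneg_left h2 (by positivity)

/-- the conductors after a shift of the ordinates -/
theorem shifted {a₁ a₂ M : ℝ} (N N' : ℕ) (hM0 : 0 ≤ M) (ha₂ : 0 < a₂) (ha : 2 * (N + N' + 1) * a₂ = a₁)
    (hMb : 4 * (N + N' + 1) ≤ a₁ * M) {C Q Q' : ℝ} (hC : 1 ≤ C) (hQ : 1 ≤ Q) (hQ' : 1 ≤ Q')
    (hM : M = Real.log (C * Q * Q')) :
    ∃ C₁ Q₁ : ℝ, C₁ = (1 + Real.exp (a₂ * M)) ^ N' * C ∧ Q₁ = (1 + 2 * Real.exp (a₂ * M)) ^ N * Q ∧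
      C ≤ C₁ ∧ Q ≤ Q₁ ∧ Real.log C₁ ≤ Real.log C + a₁ * M ∧ Real.log Q₁ ≤ Real.log Q + a₁ * M ∧
      Real.log (C₁ * Q₁ * Q') ≤ M + a₁ * M ∧ C * Q * Q' ≤ C₁ * Q₁ * Q' := by
  have hC0 : 0 < C := by linarith
  have hQ0 : 0 < Q := by linarith
  have hQ'0 : 0 < Q' := by linarith
  obtain ⟨R, hR⟩ : ∃ R : ℝ, R = Real.exp (a₂ * M) := ⟨_, rfl⟩
  have hR1 : 1 ≤ R := by rw [hR]; exact Real.one_le_exp (by positivity)
  rw [← hR]
  have hN0 : (0 : ℝ) ≤ N := Nat.cast_nonneg N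
  have hN'0 : (0 : ℝ) ≤ N' := Nat.cast_nonneg N'
  have hl0 : 0 ≤ Real.log (1 + 2 * R) := Real.log_nonneg (by linarith)
  have hl : Real.log (1 + 2 * R) ≤ 2 + a₂ * M := by
    rw [Real.log_le_iff_le_exp (by linarith), Real.exp_add, ← hR]
    have h3 : (3 : ℝ) ≤ Real.exp 2 := by
      have := Real.add_one_le_exp (2 : ℝ)
      linarith
    nlinarith
  have hl' : Real.log (1 + R) ≤ Real.log (1 + 2 * R) := Real.log_le_log (by linarith) (by linarith)
  have h1 : (1 : ℝ) ≤ (1 + R) ^ N' := one_le_pow₀ (by linarith)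
  have h2 : (1 : ℝ) ≤ (1 + 2 * R) ^ N := one_le_pow₀ (by linarith)
  have hkey : (N + N' : ℝ) * Real.log (1 + 2 * R) ≤ a₁ * M := by
    have h3 : (N + N' : ℝ) * Real.log (1 + 2 * R) ≤ (N + N' + 1) * (2 + a₂ * M) :=
      mul_le_mul (by linarith) hl hl0 (by positivity)
    have h4 : (N + N' + 1 : ℝ) * (a₂ * M) = a₁ * M / 2 := by
      rw [← ha]
      ring
    nlinarith
  have hN1 : (N : ℝ) * Real.log (1 + 2 * R) ≤ a₁ * M := by nlinarith
  have hN2 : (N' : ℝ) * Real.log (1 + R) ≤ N' * Real.log (1 + 2 * R) := mul_le_mul_of_nonneg_left hl' hN'0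
  have hN3 : (N' : ℝ) * Real.log (1 + 2 * R) ≤ a₁ * M := by nlinarith
  have e1 : Real.log ((1 + R) ^ N' * C) = N' * Real.log (1 + R) + Real.log C := by
    rw [Real.log_mul (by positivity) hC0.ne', Real.log_pow]
  have e2 : Real.log ((1 + 2 * R) ^ N * Q) = N * Real.log (1 + 2 * R) + Real.log Q := by
    rw [Real.log_mul (by positivity) hQ0.ne', Real.log_pow]
  refine ⟨_, _, rfl, rfl, le_mul_of_one_le_left hC0.le h1, le_mul_of_one_le_left hQ0.le h2, ?_, ?_, ?_, ?_⟩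
  · rw [e1]
    linarith
  · rw [e2]
    linarith
  · rw [Real.log_mul (by positivity) hQ'0.ne', Real.log_mul (by positivity) (by positivity), e1, e2, hM,
      Real.log_mul (by positivity) hQ'0.ne', Real.log_mul hC0.ne' hQ0.ne']
    have : Real.log (C * Q * Q') = Real.log C + Real.log Q + Real.log Q' := by
      rw [Real.log_mul (by positivity) hQ'0.ne', Real.log_mul hC0.ne' hQ0.ne']
    rw [← this, ← hM]
    linarith
  · refine mul_le_mul_of_nonneg_right ?_ hQ'0.le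
    exact mul_le_mul (le_mul_of_one_le_left hC0.le h1) (le_mul_of_one_le_left hQ0.le h2) hQ0.le (by positivity)

/-- counting a family by three subfamilies -/
theorem three {ι : Type} [Fintype ι] (P₁ P₂ P₃ : ι → Prop) (h : ∀ f, P₁ f ∨ P₂ f ∨ P₃ f) {B₁ B₂ B₃ : ℝ}
    (h₁ : ∀ [Fintype {f // P₁ f}], (Fintype.card {f // P₁ f} : ℝ) ≤ B₁)
    (h₂ : ∀ [Fintype {f // P₂ f}], (Fintype.card {f // P₂ f} : ℝ) ≤ B₂)
    (h₃ : ∀ [Fintype {f // P₃ f}], (Fintype.card {f // P₃ f} : ℝ) ≤ B₃) :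
    (Fintype.card ι : ℝ) ≤ B₁ + B₂ + B₃ := by
  classical
  have e : ∀ P : ι → Prop, Fintype.card {f // P f} = (Finset.univ.filter P).card := fun P =>
    Fintype.card_subtype P
  have h4 : (Finset.univ : Finset ι) ⊆ Finset.univ.filter P₁ ∪ (Finset.univ.filter P₂ ∪ Finset.univ.filter P₃) := by
    intro f _
    simp only [Finset.mem_union, Finset.mem_filter, Finset.mem_univ, true_and]
    exact h f
  have h5 := (Finset.card_le_card h4).trans (Finset.card_union_le _ _)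
  have h6 := Finset.card_union_le (Finset.univ.filter P₂) (Finset.univ.filter P₃)
  rw [Finset.card_univ] at h5
  have h7 : Fintype.card ι ≤ (Finset.univ.filter P₁).card + ((Finset.univ.filter P₂).card +
      (Finset.univ.filter P₃).card) := by omega
  have h8 : (Fintype.card ι : ℝ) ≤ (Finset.univ.filter P₁).card + ((Finset.univ.filter P₂).card +
      (Finset.univ.filter P₃).card) := by exact_mod_cast h7
  have g1 := h₁
  have g2 := h₂
  have g3 := h₃
  rw [e] at g1 g2 g3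
  linarith

end Pool.Agent.T3h90.CI
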