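import Pool.Agent.T3h90.CI.Core

/-! The density theorem, for large conductors: the assembly. -/

set_option autoImplicit false

namespace Pool.Agent.T3h90.CI

open Filter Topology Complex MeasureTheory Set NumberField IsDedekindDomain
open Pool.Agent.TH949.LT (TT Lam VV VV_nonneg VV_le)
open Pool.Agent.N846.DT (PairF co Uc co_abs summ_mono' summ_cs Lam_nonneg half_exp)
open Pool.Agent.N846.DU (VX LV Nv logRS RS GLFamily Rep LV_nonneg one_le_cond shift_cond shift_cond' S_LEFT S_DIAG)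
open Pool.Agent.N846.LM (Twists)
open Pool.Agent.N846.ZD (Ph Maj Supp S_POW S_MOLL S_MB S_CONV S_BLOCK S_CVX cut_summ absorb MM data pig blk)
open Pool.Agent.N846.LV (S_LVD cross mono2)
open Pool.Agent.N846.HU (S_DET S_PL count0)

/-- counting by blocks -/
theorem by_blocks {ι : Type} [Fintype ι] {x Y e B : ℝ} (rr : ι → ℕ) (hrr : ∀ f, rr f ∈ Finset.Ico ⌊x⌋₊ (⌊Y⌋₊ + 1))
    (hfl : 4 * ((⌊Y⌋₊ : ℝ) + 1) ≤ Real.exp e)
    (hblock : ∀ r ∈ Finset.Ico ⌊x⌋₊ (⌊Y⌋₊ + 1), ∀ [Fintype {f // rr f = r}],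
      (Fintype.card {f // rr f = r} : ℝ) ≤ 2 * Real.exp B) :
    (Fintype.card ι : ℝ) ≤ Real.exp (e + B) := by
  classical
  have hcount : (Fintype.card ι : ℝ) ≤ ∑ r ∈ Finset.Ico ⌊x⌋₊ (⌊Y⌋₊ + 1),
      (((Finset.univ.filter fun f => rr f = r).card : ℕ) : ℝ) := by
    have h2 : Fintype.card ι = ∑ r ∈ Finset.Ico ⌊x⌋₊ (⌊Y⌋₊ + 1), (Finset.univ.filter fun f => rr f = r).card := by
      rw [← Finset.card_univ]
      exact Finset.card_eq_sum_card_fiberwise fun f _ => hrr f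
    rw [h2]
    push_cast
    exact le_rfl
  have hb : ∀ r ∈ Finset.Ico ⌊x⌋₊ (⌊Y⌋₊ + 1), (((Finset.univ.filter fun f => rr f = r).card : ℕ) : ℝ) ≤
      2 * Real.exp B := by
    intro r hr
    have h2 := hblock r hr
    rw [Fintype.card_subtype] at h2
    exact h2
  refine hcount.trans ((Finset.sum_le_sum hb).trans ?_)
  rw [Finset.sum_const, Nat.card_Ico, nsmul_eq_mul]
  have h6 : (((⌊Y⌋₊ + 1 - ⌊x⌋₊ : ℕ)) : ℝ) ≤ (⌊Y⌋₊ : ℝ) + 1 := by
    have : (⌊Y⌋₊ + 1 - ⌊x⌋₊ : ℕ) ≤ ⌊Y⌋₊ + 1 := Nat.sub_le _ _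
    exact_mod_cast this
  have h7 := Real.exp_pos B
  rw [Real.exp_add]
  calc _ ≤ ((⌊Y⌋₊ : ℝ) + 1) * (2 * Real.exp B) := mul_le_mul_of_nonneg_right h6 (by positivity)
    _ = (2 * ((⌊Y⌋₊ : ℝ) + 1)) * Real.exp B := by ring
    _ ≤ Real.exp e * Real.exp B := by
        refine mul_le_mul_of_nonneg_right ?_ h7.le
        have : (0 : ℝ) ≤ (⌊Y⌋₊ : ℝ) + 1 := by positivity
        linarith

theorem core (hPow : S_POW) (hMo : S_MOLL) (hMb : S_MB) (hConv : S_CONV) (hBl : S_BLOCK) (hL : S_LEFT)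
    (hDi : S_DIAG) (hLvd : S_LVD) (hDet : S_DET) (hPl : S_PL) (hCv : S_CVX)
    (K : Type) [Field K] [NumberField K] (n N n' N' N'' j : ℕ) (hn : 1 ≤ n) (hj : 1 ≤ j) {σ ε : ℝ} (hσ : 1 / 2 < σ)
    (hσ1 : σ ≤ 1) (hε : 0 < ε) : ∃ E₀ : ℝ, 1 ≤ E₀ ∧
    ∀ (ι : Type) [Fintype ι] (S : ι → Finset (HeightOneSpectrum (𝓞 K)))
      (α : ι → HeightOneSpectrum (𝓞 K) → Fin n → ℂ) (u : ι → VX K → ℂ) (q : ι → ι → ℝ) (κ : ι → ι → Fin N → ℂ)
      (S' : Finset (HeightOneSpectrum (𝓞 K))) (α' : HeightOneSpectrum (𝓞 K) → Fin n' → ℂ) (w : VX K → ℂ) (q' : ℝ)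
      (κ' : Fin N'' → ℂ) (qs : ι → ℝ) (μ : ι → Fin N' → ℂ) (L : ι → ℂ → ℂ),
      GLFamily n N S α u q κ → Twists n' N' N'' u S' α' w q' κ' qs μ L →
      ∀ (ρ : ι → ℂ) (C Q Q' : ℝ), 1 ≤ C → 1 ≤ Q → j * Real.log C ≤ 2 * Real.log Q →
        q' * ∏ j, (1 + ‖κ' j‖) ≤ Q' →
        E₀ ≤ C * Q * Q' → (∀ f, ∏ v ∈ S f, Nv v ≤ C * Q * Q') → (∀ f, L f (ρ f) = 0) → (∀ f, σ ≤ (ρ f).re) →
        (∀ f, qs f * ∏ j, (1 + ‖μ f j + (ρ f).im * I‖) ≤ C) →
        (∀ f g, q f g * ∏ j, (1 + ‖κ f g j + ((ρ f).im - (ρ g).im) * I‖) ≤ Q) →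
        (Fintype.card ι : ℝ) ≤ Real.exp (ε * Real.log (C * Q * Q') + ex j σ * Real.log Q) := by
  obtain ⟨e₀, e₁, a₁, a₂, c, a, η, σ₀, he₀0, he₀1, he₀ε, he₁0, he₁, ha₁0, ha₁, ha₂0, ha₂, hc0, hc, ha2, ha, hη0, hη,
    hσ₀⟩ := pars hε j N N'
  have hj1 : (1 : ℝ) ≤ j := by exact_mod_cast hj
  have h0 : 0 < σ₀ := by rw [hσ₀]; positivity
  have hc1 : c ≤ 1 / 4 := by linarith
  have hN0 : (0 : ℝ) ≤ N := Nat.cast_nonneg N
  have hN'0 : (0 : ℝ) ≤ N' := Nat.cast_nonneg N'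
  have hη448 : 448 * η ≤ e₀ := by
    rw [← hη]
    have : η * 1 ≤ η * j := mul_le_mul_of_nonneg_left hj1 hη0.le
    linarith
  have ha₁32 : 32 * a₁ ≤ e₀ := by
    rw [← ha₁]
    have : a₁ * 1 ≤ a₁ * j := mul_le_mul_of_nonneg_left hj1 ha₁0.le
    linarith
  have he₁64 : 64 * e₁ ≤ e₀ := by
    rw [← he₁]
    have : e₁ * 1 ≤ e₁ * j := mul_le_mul_of_nonneg_left hj1 he₁0.le
    linarith
  obtain ⟨K₁, hK₁, hdat⟩ := data hL hDi K n N n' N' N'' (σ₀ := σ₀) (σ₁ := 1) (c := c) (η := η) h0 one_pos hc0 hη0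
  obtain ⟨A₁, hA₁1, hline⟩ := line hL hDi hCv K n N n' N' N''
  obtain ⟨Cd, hCd0, hDe⟩ := detect2 hMb hσ (A := 4 * N' + 8 / a₂) (by positivity)
  obtain ⟨Cb, hCb0, hBlk⟩ := hBl σ₀ c (N * (1 / 2 + σ₀)) 1 h0 hc0 hc1 (by positivity)
  obtain ⟨A₂, hA₂1, hlv⟩ := lv_all hPow hConv hBl hL hDi hLvd hDet hPl K n N n' N' N'' j hn he₁0
  obtain ⟨A₃, hA₃1, hmol⟩ := mol_all hPow hConv hBl hL hDi hDet hPl K n N n' N' N'' hn he₁0
  have hx2 := Real.exp_pos (a ^ 2)
  obtain ⟨A₄, hA₄1, habs⟩ := absorb hη0 (K₁ + Cd + Cb + 8 + Real.exp (a ^ 2) + 24)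
  refine ⟨max (max A₁ A₂) (max (max A₃ A₄) (Real.exp (8 / e₀ + 4 * (N + N' + 1) / a₁ + 8))),
    hA₁1.trans ((le_max_left _ _).trans (le_max_left _ _)), ?_⟩
  intro ι _ S α u q κ S' α' w q' κ' qs μ L h hT ρ C Q Q' hC hQ hjC hcQ' hGE hram hzero hre hcC hcQ
  have hGE1 : A₁ ≤ C * Q * Q' := ((le_max_left _ _).trans (le_max_left _ _)).trans hGE
  have hGE2 : A₂ ≤ C * Q * Q' := ((le_max_right _ _).trans (le_max_left _ _)).trans hGE
  have hGE3 : A₃ ≤ C * Q * Q' := (((le_max_left _ _).trans (le_max_left _ _)).trans (le_max_right _ _)).trans hGE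
  have hGE4 : A₄ ≤ C * Q * Q' := (((le_max_right _ _).trans (le_max_left _ _)).trans (le_max_right _ _)).trans hGE
  have hGE5 : Real.exp (8 / e₀ + 4 * (N + N' + 1) / a₁ + 8) ≤ C * Q * Q' :=
    ((le_max_right _ _).trans (le_max_right _ _)).trans hGE
  have hC0 : 0 < C := by linarith
  have hQ0 : 0 < Q := by linarith
  have hQ'1 : 1 ≤ Q' := by
    have h2 := one_le_cond (κ := κ') hT.self.one_le 0
    simp only [add_zero] at h2
    linarith
  have hQ'0 : 0 < Q' := by linarith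
  have hCG : C ≤ C * Q * Q' := by
    have h1 : C ≤ C * Q := le_mul_of_one_le_right hC0.le hQ
    exact h1.trans (le_mul_of_one_le_right (by positivity) hQ'1)
  have hQG : Q ≤ C * Q * Q' := by
    have h1 : Q ≤ C * Q := le_mul_of_one_le_left hQ0.le hC
    exact h1.trans (le_mul_of_one_le_right (by positivity) hQ'1)
  have hG0 : 0 < C * Q * Q' := by linarith
  obtain ⟨M, hM⟩ : ∃ M : ℝ, M = Real.log (C * Q * Q') := ⟨_, rfl⟩
  obtain ⟨LC, hLC⟩ : ∃ LC : ℝ, LC = Real.log C := ⟨_, rfl⟩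
  obtain ⟨LQ, hLQ⟩ : ∃ LQ : ℝ, LQ = Real.log Q := ⟨_, rfl⟩
  have hM5 : 8 / e₀ + 4 * (N + N' + 1) / a₁ + 8 ≤ M := by
    rw [hM]
    exact (Real.le_log_iff_exp_le hG0).2 hGE5
  have hp1 : 0 < 8 / e₀ := by positivity
  have hp2 : 0 < 4 * ((N : ℝ) + N' + 1) / a₁ := by positivity
  have hM8 : 8 ≤ M := by linarith
  have hM0 : 0 ≤ M := by linarith
  have heM : 8 ≤ e₀ * M := by
    have : 8 / e₀ ≤ M := by linarith
    rw [div_le_iff₀ he₀0] at this
    linarith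
  have hMb4 : 4 * ((N : ℝ) + N' + 1) ≤ a₁ * M := by
    have : 4 * ((N : ℝ) + N' + 1) / a₁ ≤ M := by linarith
    rw [div_le_iff₀ ha₁0] at this
    linarith
  have hLC0 : 0 ≤ LC := by rw [hLC]; exact Real.log_nonneg hC
  have hLQ0 : 0 ≤ LQ := by rw [hLQ]; exact Real.log_nonneg hQ
  have hLCM : LC ≤ M := by rw [hLC, hM]; exact Real.log_le_log hC0 hCG
  have hLQM : LQ ≤ M := by rw [hLQ, hM]; exact Real.log_le_log hQ0 hQG
  rw [← hLC, ← hLQ] at hjC
  obtain ⟨hAM, hAM1⟩ := habs _ hGE4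
  rw [← hM] at hAM hAM1
  have hKM : K₁ ≤ Real.exp (η * M) := by linarith
  have hCdM : Cd ≤ Real.exp (η * M) := by linarith
  have hCbM : Cb ≤ Real.exp (η * M) := by linarith
  have h8M : 8 ≤ Real.exp (η * M) := by linarith
  have he2M : Real.exp (a ^ 2) ≤ Real.exp (η * M) := by linarith
  have hηM0 : 0 ≤ η * M := by positivity
  have hηM : 448 * (η * M) ≤ e₀ * M := by
    have := mul_le_mul_of_nonneg_right hη448 hM0
    linarith
  have ha₁M : 32 * (a₁ * M) ≤ e₀ * M := by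
    have := mul_le_mul_of_nonneg_right ha₁32 hM0
    linarith
  have he₁M : 64 * (e₁ * M) ≤ e₀ * M := by
    have := mul_le_mul_of_nonneg_right he₁64 hM0
    linarith
  have he₀M : e₀ * M ≤ M := by
    have := mul_le_mul_of_nonneg_right he₀1 hM0
    linarith
  have hcM : 120 * (c * M) = e₀ * M := by rw [← hc]; ring
  have hGη : (C * Q * Q') ^ η = Real.exp (η * M) := by
    rw [Real.rpow_def_of_pos hG0, hM, mul_comm]
  -- the lengths
  obtain ⟨y, hy⟩ : ∃ y : ℝ, y = th j σ * LQ := ⟨_, rfl⟩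
  obtain ⟨Y, hY⟩ : ∃ Y : ℝ, Y = (a * y + a₁ * M) / (a - 1) := ⟨_, rfl⟩
  obtain ⟨x, hx⟩ : ∃ x : ℝ, x = LQ + a₁ * M + 1 := ⟨_, rfl⟩
  have hth0 := th_nonneg hj hσ1
  have hth2 := th_le hj hσ1
  have hy0 : 0 ≤ y := by rw [hy]; positivity
  have hyM : y ≤ 2 * M := by
    rw [hy]
    calc th j σ * LQ ≤ 2 * M := mul_le_mul hth2 hLQM hLQ0 (by norm_num)
      _ = _ := rfl
  have ha1 : 0 < a - 1 := by linarith
  have hYeq : Y = y + (y + a₁ * M) / (a - 1) := by
    rw [hY]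
    field_simp
    ring
  have hYy : (y + a₁ * M) / (a - 1) ≤ e₀ / 8 * M := by
    have h1 : (y + a₁ * M) / (a - 1) ≤ 3 * M / (a - 1) :=
      div_le_div_of_nonneg_right (by linarith) ha1.le
    have h2 : 3 * M / (a - 1) = 3 / (a - 1) * M := by ring
    rw [h2] at h1
    exact h1.trans (mul_le_mul_of_nonneg_right ha hM0)
  have hYy0 : 0 ≤ (y + a₁ * M) / (a - 1) := by positivity
  have hY0 : 0 ≤ Y := by linarith
  have hY5 : Y ≤ 5 * M := by
    have : e₀ / 8 * M ≤ M := by linarith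
    linarith
  have hx0 : 0 ≤ x := by rw [hx]; positivity
  have hx1 : 1 ≤ x := by
    rw [hx]
    have : 0 ≤ a₁ * M := by positivity
    linarith
  have hxM : x ≤ 2 * M := by rw [hx]; linarith
  have hfl : 4 * ((⌊Y⌋₊ : ℝ) + 1) ≤ Real.exp (η * M) := by
    refine le_trans ?_ hAM1
    have h2 := Nat.floor_le hY0
    have h3 : 24 * (M + 1) ≤ (K₁ + Cd + Cb + 8 + Real.exp (a ^ 2) + 24) * (M + 1) :=
      mul_le_mul_of_nonneg_right (by linarith) (by linarith)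
    linarith
  -- the data
  obtain ⟨hD1, hDw, ⟨F, hF⟩, hLf⟩ := hdat ι S α u q κ S' α' w q' κ' qs μ L h hT (fun f => (ρ f).im) C Q Q' hC hQ
    hcQ' hcC hcQ
  have hKG : K₁ * (C * Q * Q') ^ η ≤ Real.exp (2 * η * M) := by
    rw [hGη]
    calc K₁ * Real.exp (η * M) ≤ Real.exp (η * M) * Real.exp (η * M) :=
          mul_le_mul_of_nonneg_right hKM (Real.exp_pos _).le
      _ = _ := by rw [← Real.exp_add]; congr 1; ring
  have hwsum : Summable fun x => ‖w x‖ ^ 2 * Real.exp (-((1 + c) * LV x)) := hT.rep.summable _ (by linarith)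
  have hwsum2 : Summable fun x => ‖w x‖ ^ 2 * Real.exp (-((1 + 2 * c) * LV x)) := hT.rep.summable _ (by linarith)
  have husum : ∀ f, Summable fun x => ‖u f x‖ ^ 2 * Real.exp (-((1 + c) * LV x)) := fun f =>
    (h.rep f).summable _ (by linarith)
  have hDw1 : Real.exp (∑' x : VX K, ‖w x‖ ^ 2 * Real.exp (-((1 + c) * LV x))) ≤ Real.exp (2 * η * M) :=
    hDw.trans hKG
  have hD' := mono2 hc0.le LV_nonneg hwsum hwsum2 hDw1
  have huw : ∀ f, Summable fun v => ‖u f v‖ * ‖w v‖ * Real.exp (-((1 + c) * LV v)) := fun f =>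
    summ_cs (husum f) hwsum
  have hDuw : ∀ f, Real.exp (∑' v : VX K, ‖u f v‖ * ‖w v‖ * Real.exp (-((1 + c) * LV v))) ≤
      Real.exp (2 * η * M) := fun f => cross (husum f) hwsum (huw f) ((hD1 f).trans hKG) hDw1
  have hre1 : ∀ f, (ρ f).re ≤ 1 := by
    intro f
    by_contra hlt
    push Not at hlt
    have h2 := hT.eq f (ρ f) hlt
    rw [hzero f] at h2
    exact Complex.exp_ne_zero _ h2.symm
  have hFb : ∀ f g, f ≠ g → ∀ v : ℝ, ‖F f g (((-σ₀ : ℝ) : ℂ) + (((ρ f).im - (ρ g).im) + v : ℝ) * I)‖ ≤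
      Real.exp ((1 / 2 + σ₀) * LQ + 2 * η * M) * (1 + |v|) ^ (N * (1 / 2 + σ₀)) := by
    intro f g hfg v
    refine ((hF f g hfg).2 v).trans (mul_le_mul_of_nonneg_right ?_ (by positivity))
    have h2 : Q ^ (1 / 2 + σ₀) = Real.exp ((1 / 2 + σ₀) * LQ) := by
      rw [Real.rpow_def_of_pos hQ0, hLQ, mul_comm]
    rw [Real.exp_add, ← h2]
    calc _ = Q ^ (1 / 2 + σ₀) * (K₁ * (C * Q * Q') ^ η) := by ring
      _ ≤ _ := mul_le_mul_of_nonneg_left hKG (by positivity)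
  obtain ⟨cf, hcM', hc1', hc0', hcH⟩ := hMo (VX K) w LV x LV_nonneg hx0
  -- the value on the critical line
  obtain ⟨hh, hhh⟩ : ∃ hh : ℝ, hh = (σ - 1 / 2) * y - 2 * (η * M) := ⟨_, rfl⟩
  have hhh0 : -(2 * (η * M)) ≤ hh := by
    rw [hhh]
    have : 0 ≤ (σ - 1 / 2) * y := mul_nonneg (by linarith) hy0
    linarith
  have hinv8 : Real.exp (-(η * M)) ≤ 1 / 8 := by
    rw [Real.exp_neg, one_div]
    exact inv_anti₀ (by norm_num) h8M
  have hcond1 : Cd * Real.exp hh * Real.exp (-((σ - 1 / 2) * y)) ≤ 1 / 8 := by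
    refine le_trans ?_ hinv8
    calc _ ≤ Real.exp (η * M) * Real.exp hh * Real.exp (-((σ - 1 / 2) * y)) := by
          refine mul_le_mul_of_nonneg_right ?_ (Real.exp_pos _).le
          exact mul_le_mul_of_nonneg_right hCdM (Real.exp_pos _).le
      _ = Real.exp (-(η * M)) := by
          rw [← Real.exp_add, ← Real.exp_add, hhh]
          congr 1
          ring
  have hcond2 : Real.exp (2 * η * M) ^ 2 * Real.exp (a ^ 2 + a * y - (a - 1) * Y) ≤ 1 / 8 := by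
    have h2 : (a - 1) * Y = a * y + a₁ * M := by
      rw [hY]
      field_simp
    rw [h2, show a ^ 2 + a * y - (a * y + a₁ * M) = a ^ 2 + -(a₁ * M) by ring, Real.exp_add, ← Real.exp_nat_mul]
    refine le_trans ?_ hinv8
    have h14 : 14 * (η * M) = a₁ * M := by
      have h3 : 14 * η = a₁ := by
        have h4 : 14 * 16 * ((j : ℝ) + 1) * η = 16 * (j + 1) * a₁ := by rw [hη, ha₁]
        have h5 : 16 * ((j : ℝ) + 1) * (14 * η) = 16 * (j + 1) * a₁ := by rw [← h4]; ring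
        exact mul_left_cancel₀ (by positivity) h5
      rw [← h3]
      ring
    calc _ ≤ Real.exp ((2 : ℕ) * (2 * η * M)) * (Real.exp (η * M) * Real.exp (-(a₁ * M))) := by
          refine mul_le_mul_of_nonneg_left ?_ (Real.exp_pos _).le
          exact mul_le_mul_of_nonneg_right he2M (Real.exp_pos _).le
      _ = Real.exp ((2 : ℕ) * (2 * η * M) + (η * M + -(a₁ * M))) := by
          rw [Real.exp_add, Real.exp_add (η * M)]
      _ ≤ _ := by
          refine Real.exp_le_exp.2 ?_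
          push_cast
          linarith
  have hmmb : ∀ f (v : ℝ), ‖MM LV x (u f) w (((1 / 2 : ℝ) : ℂ) + ((ρ f).im + v : ℝ) * I)‖ ≤ Real.exp (3 * M - 4) := by
    intro f v
    obtain ⟨-, h3⟩ := hMb (VX K) (u f) w LV x (1 + c) LV_nonneg hx0 (huw f)
    refine (h3 _).trans ?_
    have hre' : (((1 / 2 : ℝ) : ℂ) + ((ρ f).im + v : ℝ) * I).re = 1 / 2 := by simp
    rw [hre']
    refine (mul_le_mul_of_nonneg_left (hDuw f) (Real.exp_pos _).le).trans ?_
    rw [← Real.exp_add]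
    refine Real.exp_le_exp.2 ?_
    rw [max_eq_left (by linarith)]
    have h4 : (1 + c - 1 / 2) * x ≤ 3 / 4 * x := mul_le_mul_of_nonneg_right (by linarith) hx0
    linarith
  have hLb : ∀ f (v : ℝ), ‖L f (((1 / 2 : ℝ) : ℂ) + ((ρ f).im + v : ℝ) * I)‖ ≤
      Real.exp (4 * M) * (1 + |v|) ^ (4 * (N' : ℝ)) := by
    intro f v
    have hcQf : q f f * ∏ j, (1 + ‖κ f f j‖) ≤ Q := by
      have := hcQ f f
      simpa only [sub_self, zero_mul, add_zero] using this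
    have h3 := hline ι S α u q κ S' α' w q' κ' qs μ L h hT f (ρ f).im C Q Q' hC hQ hcQ' (hcC f) hcQf hGE1
      (((1 / 2 : ℝ) : ℂ) + ((ρ f).im + v : ℝ) * I) (by
        simp only [add_re, ofReal_re, mul_re, I_re, mul_zero, ofReal_im, I_im, mul_one, sub_self, add_zero]
        norm_num) (by
        simp only [add_re, ofReal_re, mul_re, I_re, mul_zero, ofReal_im, I_im, mul_one, sub_self, add_zero]
        norm_num)
    have him : (((1 / 2 : ℝ) : ℂ) + ((ρ f).im + v : ℝ) * I).im - (ρ f).im = v := by simp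
    rw [him, ← hM] at h3
    exact h3
  have hprod : ∀ f (v : ℝ), ‖L f (((1 / 2 : ℝ) : ℂ) + ((ρ f).im + v : ℝ) * I) *
      MM LV x (u f) w (((1 / 2 : ℝ) : ℂ) + ((ρ f).im + v : ℝ) * I)‖ ≤
      Real.exp (7 * M - 4) * (1 + |v|) ^ (4 * (N' : ℝ)) := by
    intro f v
    rw [norm_mul]
    calc _ ≤ (Real.exp (4 * M) * (1 + |v|) ^ (4 * (N' : ℝ))) * Real.exp (3 * M - 4) :=
          mul_le_mul (hLb f v) (hmmb f v) (norm_nonneg _) (by positivity)
      _ = Real.exp (4 * M) * Real.exp (3 * M - 4) * (1 + |v|) ^ (4 * (N' : ℝ)) := by ring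
      _ = _ := by
          rw [← Real.exp_add]
          congr 2
          ring
  -- the alternative
  have halt : ∀ f, (∃ r ∈ Finset.Ico ⌊x⌋₊ (⌊Y⌋₊ + 1), 1 / (4 * ((⌊Y⌋₊ : ℝ) + 1)) ≤
      ‖Ph LV (blk LV cf x y Y r) (u f) (ρ f)‖) ∨
      (∃ v : ℝ, |v| ≤ Real.exp (a₂ * M) ∧ Real.exp hh ≤ ‖L f (1 / 2 + ((ρ f).im + v : ℝ) * I)‖ *
        ‖MM LV x (u f) w (1 / 2 + ((ρ f).im + v : ℝ) * I)‖) := by
    intro f
    by_contra hne
    push Not at hne
    obtain ⟨hn1, hn2⟩ := hne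
    have hB := dich (a₂ := a₂) (A₀ := 4 * (N' : ℝ)) (M := M) (h := hh) (h' := 7 * M - 4) ha₂0
      (g := fun v => ‖L f (((1 / 2 : ℝ) : ℂ) + ((ρ f).im + v : ℝ) * I) *
        MM LV x (u f) w (((1 / 2 : ℝ) : ℂ) + ((ρ f).im + v : ℝ) * I)‖) (hprod f) (by linarith) hM0
      (fun v hv => by
        have h3 := hn2 v hv
        simp only [norm_mul]
        have e1 : ((1 / 2 : ℝ) : ℂ) = 1 / 2 := by push_cast; rfl
        rw [e1]
        exact h3) (by positivity)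
    have hdet := hDe (VX K) (u f) w LV (L f) cf (ρ f) (Real.exp hh) c x y Y (Real.exp (2 * η * M)) a LV_nonneg
      (hLf f).1 (hzero f) (hre f) (hre1 f) hc0 hc1 (huw f) (hDuw f) hx0 hy0 ha2 (Real.exp_pos _).le hB hcM' hc1' hc0'
      (fun s hs => hcH (u f) s hs) hcond1 hcond2
    obtain ⟨r, hr1, hr2⟩ := pig (u := u f) (L := LV) LV_nonneg hx0 (huw f) hcM' hdet
    exact absurd hr2 (not_le.2 (hn1 r hr1))
  have hv0 : ∀ f, ∃ v : ℝ, |v| ≤ Real.exp (a₂ * M) ∧ ((∃ r ∈ Finset.Ico ⌊x⌋₊ (⌊Y⌋₊ + 1),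
      1 / (4 * ((⌊Y⌋₊ : ℝ) + 1)) ≤ ‖Ph LV (blk LV cf x y Y r) (u f) (ρ f)‖) ∨
      (Real.exp hh ≤ ‖L f (1 / 2 + ((ρ f).im + v : ℝ) * I)‖ *
        ‖MM LV x (u f) w (1 / 2 + ((ρ f).im + v : ℝ) * I)‖)) := by
    intro f
    rcases halt f with h3 | ⟨v, h3, h4⟩
    · exact ⟨0, by rw [abs_zero]; exact (Real.exp_pos _).le, Or.inl h3⟩
    · exact ⟨v, h3, Or.inr h4⟩
  choose v hv1 hv2 using hv0
  have hjj : (0 : ℝ) < (j : ℝ) + 1 := by positivity
  -- the three subfamilies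
  have hthree := three (fun f => ∃ r ∈ Finset.Ico ⌊x⌋₊ (⌊Y⌋₊ + 1),
      1 / (4 * ((⌊Y⌋₊ : ℝ) + 1)) ≤ ‖Ph LV (blk LV cf x y Y r) (u f) (ρ f)‖)
    (fun f => Real.exp (hh / (j + 1)) ≤ ‖L f (1 / 2 + ((ρ f).im + v f : ℝ) * I)‖)
    (fun f => Real.exp (j * hh / (j + 1)) ≤ ‖MM LV x (u f) w (1 / 2 + ((ρ f).im + v f : ℝ) * I)‖)
    (fun f => by
      rcases hv2 f with h3 | h3
      · exact Or.inl h3
      · by_contra hne
        push Not at hne
        obtain ⟨-, hn2, hn3⟩ := hne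
        have h4 : ‖L f (1 / 2 + ((ρ f).im + v f : ℝ) * I)‖ *
            ‖MM LV x (u f) w (1 / 2 + ((ρ f).im + v f : ℝ) * I)‖ <
            Real.exp (hh / (j + 1)) * Real.exp (j * hh / (j + 1)) := by
          refine mul_lt_mul'' hn2 hn3 (norm_nonneg _) (norm_nonneg _)
        rw [← Real.exp_add] at h4
        have h5 : hh / ((j : ℝ) + 1) + j * hh / (j + 1) = hh := by
          field_simp
          ring
        rw [h5] at h4
        linarith)
    (B₁ := Real.exp (ex j σ * LQ + e₀ * M / 2)) (B₂ := Real.exp (ex j σ * LQ + e₀ * M / 2))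
    (B₃ := Real.exp (ex j σ * LQ + e₀ * M / 2)) ?_ ?_ ?_
  · refine hthree.trans ?_
    rw [← hM, ← hLQ]
    have h3 : (3 : ℝ) ≤ Real.exp (e₀ * M / 2) := by
      have := Real.add_one_le_exp (e₀ * M / 2)
      linarith
    calc _ = 3 * Real.exp (ex j σ * LQ + e₀ * M / 2) := by ring
      _ ≤ Real.exp (e₀ * M / 2) * Real.exp (ex j σ * LQ + e₀ * M / 2) :=
          mul_le_mul_of_nonneg_right h3 (Real.exp_pos _).le
      _ = Real.exp (e₀ * M + ex j σ * LQ) := by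
          rw [← Real.exp_add]
          congr 1
          ring
      _ ≤ _ := by
          refine Real.exp_le_exp.2 ?_
          have := mul_le_mul_of_nonneg_right he₀ε hM0
          linarith
  · -- long blocks
    intro _
    have hch : ∀ f : {f // ∃ r ∈ Finset.Ico ⌊x⌋₊ (⌊Y⌋₊ + 1),
      1 / (4 * ((⌊Y⌋₊ : ℝ) + 1)) ≤ ‖Ph LV (blk LV cf x y Y r) (u f) (ρ f)‖}, ∃ r ∈ Finset.Ico ⌊x⌋₊ (⌊Y⌋₊ + 1),
      1 / (4 * ((⌊Y⌋₊ : ℝ) + 1)) ≤ ‖Ph LV (blk LV cf x y Y r) (u f.1) (ρ f.1)‖ := fun f => f.2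
    choose rr hrr1 hrr2 using hch
    have h3 := by_blocks (x := x) (Y := Y) (e := η * M) (B := 13 * (η * M) + (2 - 2 * σ + 3 * c) * Y) rr hrr1 hfl
      (by
        intro r hr _
        rw [Finset.mem_Ico] at hr
        have hr1 : x - 1 ≤ (r : ℝ) := by
          have h2 := Nat.sub_one_lt_floor x
          have h3 : (⌊x⌋₊ : ℝ) ≤ r := by exact_mod_cast hr.1
          linarith
        have hr2 : (r : ℝ) ≤ Y := by
          have h2 : r ≤ ⌊Y⌋₊ := by omega
          have h3 : (r : ℝ) ≤ (⌊Y⌋₊ : ℝ) := by exact_mod_cast h2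
          exact h3.trans (Nat.floor_le hY0)
        have hr3 : LQ + a₁ * M ≤ (r : ℝ) := by
          rw [hx] at hr1
          linarith
        have h4 := one_long (σ₀ := σ₀) (c := c) (η := η) hη0 hBlk (X := VX K)
          (ι := {f : {f // ∃ r ∈ Finset.Ico ⌊x⌋₊ (⌊Y⌋₊ + 1),
            1 / (4 * ((⌊Y⌋₊ : ℝ) + 1)) ≤ ‖Ph LV (blk LV cf x y Y r) (u f) (ρ f)‖} // rr f = r})
          (u := fun f => u f.1.1) (L := LV) (s := fun f => ρ f.1.1) (F := fun f g => F f.1.1 g.1.1) (w := w)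
          (cf := cf) (σ := σ) (M := M) (LQ := LQ) (x := x) (y := y) (Y := Y) (r := r) LV_nonneg hσ.le hM0
          (fun f => hre f.1.1) (fun f => hre1 f.1.1) (fun f => husum f.1.1) (fun f => (hD1 f.1.1).trans hKG) hwsum2
          hD' (fun f g hfg => (hF f.1.1 g.1.1 fun h' => hfg (Subtype.ext (Subtype.ext h'))).1)
          (fun f g hfg => hFb f.1.1 g.1.1 fun h' => hfg (Subtype.ext (Subtype.ext h'))) hcM' hCbM h8M (by
            have e1 : (σ₀ - 2 * c) * (LQ + a₁ * M) ≤ (σ₀ + 2 * σ - 1 - 2 * c) * r := by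
              refine mul_le_mul (by linarith) hr3 (by positivity) ?_
              have : 1 / 2 ≤ σ₀ := by
                rw [hσ₀]
                have : 0 < 3 / a₁ := by positivity
                linarith
              linarith
            have e2 : (σ₀ - 1 / 2) * (a₁ * M) = 3 * M := by
              rw [hσ₀]
              field_simp
              ring
            have e3 : c * LQ ≤ c * M := mul_le_mul_of_nonneg_left hLQM hc0.le
            have e4 : c * (a₁ * M) ≤ 1 / 4 * (a₁ * M) := mul_le_mul_of_nonneg_right hc1 (by positivity)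
            have e5 : (σ₀ - 2 * c) * (LQ + a₁ * M) = σ₀ * LQ - 2 * (c * LQ) + (σ₀ - 1 / 2) * (a₁ * M) +
                1 / 2 * (a₁ * M) - 2 * (c * (a₁ * M)) := by ring
            have e6 : 0 ≤ a₁ * M := by positivity
            linarith) hfl
          (fun f => by
            have := hrr2 f.1
            rw [f.2] at this
            exact this)
        refine h4.trans ?_
        refine mul_le_mul_of_nonneg_left (Real.exp_le_exp.2 ?_) (by norm_num)
        have hneg : 0 ≤ 2 - 2 * σ + 3 * c := by linarith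
        have := mul_le_mul_of_nonneg_left hr2 hneg
        linarith)
    refine h3.trans (Real.exp_le_exp.2 ?_)
    have e1 : (2 - 2 * σ + 3 * c) * Y = (2 - 2 * σ) * y + (2 - 2 * σ) * ((y + a₁ * M) / (a - 1)) + 3 * (c * Y) := by
      rw [hYeq]
      ring
    have e2 : (2 - 2 * σ) * y = ex j σ * LQ := by
      rw [hy, ← ex_th]
      ring
    have e3 : (2 - 2 * σ) * ((y + a₁ * M) / (a - 1)) ≤ 1 * ((y + a₁ * M) / (a - 1)) :=
      mul_le_mul_of_nonneg_right (by linarith) hYy0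
    have e4 : c * Y ≤ c * (5 * M) := mul_le_mul_of_nonneg_left hY5 hc0.le
    rw [e1, e2]
    linarith
  · -- large values of the `L`-function
    intro _
    obtain ⟨C₁, Q₁, hC₁, hQ₁, hCC₁, hQQ₁, hlC₁, hlQ₁, hlG₁, hGG₁⟩ := shifted N N' hM0 ha₂0 ha₂ hMb4 hC hQ hQ'1 hM
    have h3 := hlv {f // Real.exp (hh / (j + 1)) ≤ ‖L f (1 / 2 + ((ρ f).im + v f : ℝ) * I)‖} (fun f => S f.1)
      (fun f => α f.1) (fun f => u f.1) (fun f g => q f.1 g.1)
      (fun f g => κ f.1 g.1) S' α' w q' κ' (fun f => qs f.1) (fun f => μ f.1) (fun f => L f.1)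
      (h.sub (fun f : {f // Real.exp (hh / (j + 1)) ≤ ‖L f (1 / 2 + ((ρ f).im + v f : ℝ) * I)‖} => f.1)
        Subtype.val_injective)
      ⟨hT.rep, hT.self, fun f => hT.rs f.1, fun f => hT.re_gt f.1, fun f => hT.diff f.1, fun f => hT.eq f.1⟩
      (fun f => (ρ f.1).im + v f.1) (hh / (j + 1)) C₁ Q₁ Q' (hC.trans hCC₁) (hQ.trans hQQ₁) hcQ'
      (hGE2.trans hGG₁) (fun f => (hram f.1).trans hGG₁) ?_ ?_ (fun f => f.2)
    · refine h3.trans (Real.exp_le_exp.2 ?_)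
      obtain ⟨M₁, hM₁⟩ : ∃ M₁ : ℝ, M₁ = Real.log (C₁ * Q₁ * Q') := ⟨_, rfl⟩
      rw [← hM₁] at hlG₁ ⊢
      have hM₁2 : M₁ ≤ 2 * M := by linarith
      have e1 : (1 + 2 * (j : ℝ)) * (e₁ * M₁) ≤ 4 * (j + 1) * e₁ * M := by
        have : e₁ * M₁ ≤ e₁ * (2 * M) := mul_le_mul_of_nonneg_left hM₁2 he₁0.le
        have h4 : (1 + 2 * (j : ℝ)) * (e₁ * M₁) ≤ (1 + 2 * (j : ℝ)) * (e₁ * (2 * M)) :=
          mul_le_mul_of_nonneg_left this (by positivity)
        have h5 : 0 ≤ e₁ * M := by positivity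
        have h6 : (1 + 2 * (j : ℝ)) * (e₁ * (2 * M)) = 4 * (j + 1) * e₁ * M - 2 * (e₁ * M) := by ring
        rw [h6] at h4
        linarith only [h4, h5]
      have e2 : 4 * ((j : ℝ) + 1) * e₁ * M = e₀ * M / 8 := by
        rw [← he₁]
        ring
      have e3 : max (j * (Real.log C₁ / 2)) (Real.log Q₁) ≤ LQ + (j + 1) * a₁ * M := by
        have h5 : 0 ≤ a₁ * M := by positivity
        refine max_le ?_ ?_
        · have h4 : (j : ℝ) * (Real.log C₁ / 2) ≤ j * ((LC + a₁ * M) / 2) :=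
            mul_le_mul_of_nonneg_left (by rw [hLC]; linarith) (by positivity)
          have h6 : (j : ℝ) * ((LC + a₁ * M) / 2) = j * LC / 2 + j * (a₁ * M) / 2 := by ring
          have h7 : ((j : ℝ) + 1) * a₁ * M = j * (a₁ * M) + a₁ * M := by ring
          have h8 : 0 ≤ (j : ℝ) * (a₁ * M) := by positivity
          rw [h6] at h4
          rw [h7]
          linarith only [h4, h5, h8, hjC]
        · rw [hLQ]
          have h7 : ((j : ℝ) + 1) * a₁ * M = j * (a₁ * M) + a₁ * M := by ring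
          have h8 : 0 ≤ (j : ℝ) * (a₁ * M) := by positivity
          rw [h7]
          linarith only [h8, hlQ₁]
      have e4 : ((j : ℝ) + 1) * a₁ * M = e₀ * M / 16 := by
        rw [← ha₁]
        ring
      have e5 : 2 * j * (hh / (j + 1)) = 2 * j * ((σ - 1 / 2) * th j σ) / (j + 1) * LQ -
          4 * (j / (j + 1)) * (η * M) := by
        rw [hhh, hy]
        field_simp
        ring
      have e6 := ex_two hj hσ1
      have e7 : (j : ℝ) / (j + 1) ≤ 1 := by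
        rw [div_le_one hjj]
        linarith
      have e8 : 4 * ((j : ℝ) / (j + 1)) * (η * M) ≤ 4 * 1 * (η * M) :=
        mul_le_mul_of_nonneg_right (by linarith) hηM0
      have e9 : ex j σ * LQ = LQ - 2 * j * ((σ - 1 / 2) * th j σ) / (j + 1) * LQ := by
        rw [← e6]
        ring
      rw [e5]
      linarith
    · intro f
      have h3 := shift_cond' (κ := μ f.1) (hT.rs f.1).one_le (z := ((ρ f.1).im : ℂ) * I)
        (w := ((v f.1 : ℝ) : ℂ) * I) (c := Real.exp (a₂ * M)) (by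
          rw [norm_mul, Complex.norm_I, mul_one, Complex.norm_real, Real.norm_eq_abs]
          exact hv1 f.1)
      rw [hC₁]
      refine le_trans (le_of_eq ?_) (h3.trans (mul_le_mul_of_nonneg_left (hcC f.1) (by positivity)))
      congr 1
      refine Finset.prod_congr rfl fun j _ => ?_
      congr 2
      push_cast
      ring
    · intro f g
      have hq1 : 1 ≤ q f.1 g.1 := by
        by_cases hfg : f.1 = g.1
        · rw [hfg]
          exact (h.self g.1).one_le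
        · exact (h.pair f.1 g.1 hfg).one_le
      have h3 := shift_cond' (κ := κ f.1 g.1) hq1 (z := (((ρ f.1).im : ℂ) - (ρ g.1).im) * I)
        (w := ((v f.1 - v g.1 : ℝ) : ℂ) * I) (c := 2 * Real.exp (a₂ * M)) (by
          rw [norm_mul, Complex.norm_I, mul_one, Complex.norm_real, Real.norm_eq_abs]
          refine (abs_sub _ _).trans ?_
          linarith [hv1 f.1, hv1 g.1])
      rw [hQ₁]
      refine le_trans (le_of_eq ?_) (h3.trans (mul_le_mul_of_nonneg_left (hcQ f.1 g.1) (by positivity)))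
      congr 1
      refine Finset.prod_congr rfl fun j _ => ?_
      congr 2
      push_cast
      ring
  · -- large values of the mollifier
    intro _
    obtain ⟨C₁, Q₁, hC₁, hQ₁, hCC₁, hQQ₁, hlC₁, hlQ₁, hlG₁, hGG₁⟩ := shifted N N' hM0 ha₂0 ha₂ hMb4 hC hQ hQ'1 hM
    have hlG₀ : M ≤ Real.log (C₁ * Q₁ * Q') := by
      rw [hM]
      exact Real.log_le_log hG0 hGG₁
    have h3 := hmol {f // Real.exp (j * hh / (j + 1)) ≤ ‖MM LV x (u f) w (1 / 2 + ((ρ f).im + v f : ℝ) * I)‖}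
      (fun f => S f.1)
      (fun f => α f.1) (fun f => u f.1) (fun f g => q f.1 g.1)
      (fun f g => κ f.1 g.1) S' α' w q' κ' (fun f => qs f.1) (fun f => μ f.1) (fun f => L f.1)
      (h.sub (fun f : {f // Real.exp (j * hh / (j + 1)) ≤ ‖MM LV x (u f) w (1 / 2 + ((ρ f).im + v f : ℝ) * I)‖} =>
        f.1) Subtype.val_injective)
      ⟨hT.rep, hT.self, fun f => hT.rs f.1, fun f => hT.re_gt f.1, fun f => hT.diff f.1, fun f => hT.eq f.1⟩
      (fun f => (ρ f.1).im + v f.1) (j * hh / (j + 1)) C₁ Q₁ Q' x (hC.trans hCC₁) (hQ.trans hQQ₁) hcQ'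
      (hGE3.trans hGG₁) (fun f => (hram f.1).trans hGG₁) ?_ ?_ ?_ ?_ ?_ (fun f => f.2)
    · refine h3.trans (Real.exp_le_exp.2 ?_)
      obtain ⟨M₁, hM₁⟩ : ∃ M₁ : ℝ, M₁ = Real.log (C₁ * Q₁ * Q') := ⟨_, rfl⟩
      rw [← hM₁] at hlG₁ ⊢
      have hM₁2 : M₁ ≤ 2 * M := by linarith
      have e1 : e₁ * M₁ ≤ e₁ * (2 * M) := mul_le_mul_of_nonneg_left hM₁2 he₁0.le
      have e5 : 2 * (j * hh / (j + 1)) = 2 * j * ((σ - 1 / 2) * th j σ) / (j + 1) * LQ -
          4 * (j / (j + 1)) * (η * M) := by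
        rw [hhh, hy]
        field_simp
        ring
      have e6 := ex_two hj hσ1
      have e7 : (j : ℝ) / (j + 1) ≤ 1 := by
        rw [div_le_one hjj]
        linarith
      have e8 : 4 * ((j : ℝ) / (j + 1)) * (η * M) ≤ 4 * 1 * (η * M) :=
        mul_le_mul_of_nonneg_right (by linarith) hηM0
      have e9 : ex j σ * LQ = LQ - 2 * j * ((σ - 1 / 2) * th j σ) / (j + 1) * LQ := by
        rw [← e6]
        ring
      rw [e5, hx]
      linarith
    · intro f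
      have h3 := shift_cond' (κ := μ f.1) (hT.rs f.1).one_le (z := ((ρ f.1).im : ℂ) * I)
        (w := ((v f.1 : ℝ) : ℂ) * I) (c := Real.exp (a₂ * M)) (by
          rw [norm_mul, Complex.norm_I, mul_one, Complex.norm_real, Real.norm_eq_abs]
          exact hv1 f.1)
      rw [hC₁]
      refine le_trans (le_of_eq ?_) (h3.trans (mul_le_mul_of_nonneg_left (hcC f.1) (by positivity)))
      congr 1
      refine Finset.prod_congr rfl fun j _ => ?_
      congr 2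
      push_cast
      ring
    · intro f g
      have hq1 : 1 ≤ q f.1 g.1 := by
        by_cases hfg : f.1 = g.1
        · rw [hfg]
          exact (h.self g.1).one_le
        · exact (h.pair f.1 g.1 hfg).one_le
      have h3 := shift_cond' (κ := κ f.1 g.1) hq1 (z := (((ρ f.1).im : ℂ) - (ρ g.1).im) * I)
        (w := ((v f.1 - v g.1 : ℝ) : ℂ) * I) (c := 2 * Real.exp (a₂ * M)) (by
          rw [norm_mul, Complex.norm_I, mul_one, Complex.norm_real, Real.norm_eq_abs]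
          refine (abs_sub _ _).trans ?_
          linarith [hv1 f.1, hv1 g.1])
      rw [hQ₁]
      refine le_trans (le_of_eq ?_) (h3.trans (mul_le_mul_of_nonneg_left (hcQ f.1 g.1) (by positivity)))
      congr 1
      refine Finset.prod_congr rfl fun j _ => ?_
      congr 2
      push_cast
      ring
    · rw [← hLC] at hlC₁
      have h5 : LC ≤ j * LC := le_mul_of_one_le_left hLC0 hj1
      rw [hx]
      have : 0 ≤ a₁ * M := by positivity
      linarith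
    · rw [← hLQ] at hlQ₁
      rw [hx]
      linarith
    · linarith

end Pool.Agent.T3h90.CI
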