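import Pool.Agent.N846.ZD.Tl

/-! Three lines with truncated bounds on both lines. -/

set_option autoImplicit false

namespace Pool.Agent.T3h90.CI

open Complex
open Pool.Agent.N846.ZD.TlAux

theorem tl2 {a b A : ℝ} (ha : -1 ≤ a) (hab : a < b) (hb : b ≤ 1) (hA : 0 ≤ A) : ∃ C₂ : ℝ, 1 ≤ C₂ ∧
    ∀ (F : ℂ → ℂ) (t H₁ H₂ P R : ℝ), Differentiable ℂ F →
      (∀ a b : ℝ, ∃ C' A' : ℝ, ∀ s : ℂ, a ≤ s.re → s.re ≤ b → ‖F s‖ ≤ C' * (1 + |s.im|) ^ A') →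
      1 ≤ H₁ → 1 ≤ H₂ → 0 ≤ P → 0 ≤ R → P * Real.exp (-(R ^ 2 / 2)) ≤ 1 →
      (∀ v : ℝ, |v| ≤ R → ‖F ((a : ℂ) + (t + v : ℝ) * I)‖ ≤ H₁) →
      (∀ v : ℝ, |v| ≤ R → ‖F ((b : ℂ) + (t + v : ℝ) * I)‖ ≤ H₂) →
      (∀ v : ℝ, ‖F ((a : ℂ) + (t + v : ℝ) * I)‖ ≤ P * (1 + |v|) ^ A) →
      (∀ v : ℝ, ‖F ((b : ℂ) + (t + v : ℝ) * I)‖ ≤ P * (1 + |v|) ^ A) →
      ∀ s : ℂ, a ≤ s.re → s.re ≤ b → s.im = t →
        ‖F s‖ ≤ C₂ * (H₁ ^ ((b - s.re) / (b - a)) * H₂ ^ ((s.re - a) / (b - a))) := by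
  obtain ⟨C2, hC2⟩ : ∃ C2 : ℝ, C2 = Real.exp 1 * Real.exp (2 * A ^ 2) := ⟨_, rfl⟩
  have hC21 : 1 ≤ C2 := by
    rw [hC2, ← Real.exp_add]
    exact Real.one_le_exp (by positivity)
  refine ⟨C2, hC21, ?_⟩
  intro F t H₁ H₂ P R hF hgr hH1 hH2 hP hR hPR h1 h2 h3 h4 s hs1 hs2 hst
  have hex : ∀ x : ℝ, |x| ≤ 1 → Real.exp (x ^ 2) ≤ Real.exp 1 := by
    intro x hx
    apply Real.exp_le_exp.2
    rw [← sq_abs]
    have := abs_nonneg x
    nlinarith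
  have hw : ∀ (x H : ℝ), 1 ≤ H → (∀ v : ℝ, |v| ≤ R → ‖F ((x : ℂ) + (t + v : ℝ) * I)‖ ≤ H) →
      (∀ v : ℝ, ‖F ((x : ℂ) + (t + v : ℝ) * I)‖ ≤ P * (1 + |v|) ^ A) →
      ∀ v : ℝ, ‖F ((x : ℂ) + (t + v : ℝ) * I)‖ * Real.exp (-v ^ 2) ≤ Real.exp (2 * A ^ 2) * H := by
    intro x H hH g1 g2 v
    have hv0 : 0 ≤ |v| := abs_nonneg v
    have e1 : Real.exp (-v ^ 2) = Real.exp (-(|v| ^ 2 / 2)) * Real.exp (-(|v| ^ 2 / 2)) := by
      rw [← Real.exp_add, sq_abs]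
      congr 1
      ring
    have e2 : Real.exp (-(|v| ^ 2 / 2)) ≤ 1 := Real.exp_le_one_iff.2 (by
      have := sq_nonneg |v|
      linarith)
    have e3 := pw_exp hA hv0
    have e3' : Real.exp (A ^ 2 / 2) ≤ Real.exp (2 * A ^ 2) := Real.exp_le_exp.2 (by nlinarith [sq_nonneg A])
    have e4 : 1 ≤ Real.exp (2 * A ^ 2) := Real.one_le_exp (by positivity)
    have hx0 : 0 < Real.exp (-(|v| ^ 2 / 2)) := Real.exp_pos _
    have hH0 : 0 < H := by linarith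
    by_cases hvR : |v| ≤ R
    · rw [e1]
      calc ‖F ((x : ℂ) + (t + v : ℝ) * I)‖ * (Real.exp (-(|v| ^ 2 / 2)) * Real.exp (-(|v| ^ 2 / 2)))
          ≤ H * (1 * 1) := by
            refine mul_le_mul (g1 v hvR) (mul_le_mul e2 e2 hx0.le (by norm_num)) (by positivity) hH0.le
        _ = 1 * H := by ring
        _ ≤ _ := mul_le_mul_of_nonneg_right e4 hH0.le
    · have hvR' : R ≤ |v| := (not_le.1 hvR).le
      have e5 : P * Real.exp (-(|v| ^ 2 / 2)) ≤ 1 := by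
        refine le_trans ?_ hPR
        apply mul_le_mul_of_nonneg_left _ hP
        apply Real.exp_le_exp.2
        have := pow_le_pow_left₀ hR hvR' 2
        linarith
      have hp : 0 ≤ (1 + |v|) ^ A * Real.exp (-(|v| ^ 2 / 2)) := by positivity
      rw [e1]
      calc ‖F ((x : ℂ) + (t + v : ℝ) * I)‖ * (Real.exp (-(|v| ^ 2 / 2)) * Real.exp (-(|v| ^ 2 / 2)))
          ≤ (P * (1 + |v|) ^ A) * (Real.exp (-(|v| ^ 2 / 2)) * Real.exp (-(|v| ^ 2 / 2))) :=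
            mul_le_mul_of_nonneg_right (g2 v) (by positivity)
        _ = (P * Real.exp (-(|v| ^ 2 / 2))) * ((1 + |v|) ^ A * Real.exp (-(|v| ^ 2 / 2))) := by ring
        _ ≤ 1 * Real.exp (A ^ 2 / 2) := mul_le_mul e5 e3 hp (by norm_num)
        _ ≤ Real.exp (2 * A ^ 2) * H := by
            rw [one_mul]
            exact e3'.trans (le_mul_of_one_le_right (Real.exp_pos _).le hH)
  obtain ⟨G, hG⟩ : ∃ G : ℂ → ℂ, G = fun z => F z * Complex.exp ((z - I * (t : ℂ)) ^ 2) := ⟨_, rfl⟩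
  have hGn : ∀ z, ‖G z‖ = ‖F z‖ * Real.exp (z.re ^ 2 - (z.im - t) ^ 2) := by
    intro z
    rw [hG]
    dsimp only
    rw [norm_mul, norm_gs]
  have hGd : Differentiable ℂ G := by
    rw [hG]
    exact hF.mul (((differentiable_id.sub (differentiable_const _)).pow 2).cexp)
  have hsplit : ∀ x y : ℝ, Real.exp (x ^ 2 - (y - t) ^ 2) = Real.exp (x ^ 2) * Real.exp (-(y - t) ^ 2) := by
    intro x y
    rw [← Real.exp_add]
    congr 1
  have hline : ∀ x : ℝ, ∀ z : ℂ, z.re = x → z = ((x : ℝ) : ℂ) + ((t + (z.im - t) : ℝ) : ℂ) * I := by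
    intro x z hz
    apply Complex.ext
    · simp [hz]
    · simp
  have hbd : ∀ (x H : ℝ), |x| ≤ 1 → 1 ≤ H → (∀ v : ℝ, |v| ≤ R → ‖F ((x : ℂ) + (t + v : ℝ) * I)‖ ≤ H) →
      (∀ v : ℝ, ‖F ((x : ℂ) + (t + v : ℝ) * I)‖ ≤ P * (1 + |v|) ^ A) →
      ∀ z ∈ re ⁻¹' {x}, ‖G z‖ ≤ C2 * H := by
    intro x H hx hH g1 g2 z hz
    have hz' : z.re = x := hz
    have e2 := hw x H hH g1 g2 (z.im - t)
    rw [← hline _ z hz'] at e2
    rw [hGn, hz', hsplit]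
    have e3 := hex x hx
    calc ‖F z‖ * (Real.exp (x ^ 2) * Real.exp (-(z.im - t) ^ 2))
        = Real.exp (x ^ 2) * (‖F z‖ * Real.exp (-(z.im - t) ^ 2)) := by ring
      _ ≤ Real.exp 1 * (Real.exp (2 * A ^ 2) * H) :=
          mul_le_mul e3 e2 (by positivity) (Real.exp_pos _).le
      _ = C2 * H := by rw [hC2]; ring
  have hbdd : BddAbove ((norm ∘ G) '' HadamardThreeLines.verticalClosedStrip a b) := by
    obtain ⟨C', A', hCA⟩ := hgr a b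
    refine ⟨|C'| * (Real.exp 1 * Real.exp (|A'| * |t| + |A'| ^ 2)), ?_⟩
    rintro _ ⟨z, hz, rfl⟩
    have hz1 : a ≤ z.re := hz.1
    have hz2 : z.re ≤ b := hz.2
    have e1 := hCA z hz1 hz2
    have e2 : (1 + |z.im|) ^ A' ≤ (1 + |z.im|) ^ |A'| := by
      apply Real.rpow_le_rpow_of_exponent_le _ (le_abs_self _)
      have := abs_nonneg z.im
      linarith
    have e3 : ‖F z‖ ≤ |C'| * (1 + |z.im|) ^ |A'| := by
      refine e1.trans ?_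
      have hp : 0 ≤ (1 + |z.im|) ^ A' := Real.rpow_nonneg (by positivity) _
      calc C' * (1 + |z.im|) ^ A' ≤ |C'| * (1 + |z.im|) ^ A' :=
            mul_le_mul_of_nonneg_right (le_abs_self _) hp
        _ ≤ _ := mul_le_mul_of_nonneg_left e2 (abs_nonneg _)
    have e4 := hex z.re (by rw [abs_le]; constructor <;> linarith)
    have e5 := growth |A'| t z.im (abs_nonneg _)
    show ‖G z‖ ≤ _
    rw [hGn, hsplit]
    calc ‖F z‖ * (Real.exp (z.re ^ 2) * Real.exp (-(z.im - t) ^ 2))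
        ≤ (|C'| * (1 + |z.im|) ^ |A'|) * (Real.exp 1 * Real.exp (-(z.im - t) ^ 2)) := by gcongr
      _ = |C'| * (Real.exp 1 * ((1 + |z.im|) ^ |A'| * Real.exp (-(z.im - t) ^ 2))) := by ring
      _ ≤ _ := by gcongr
  have hfin := HadamardThreeLines.norm_le_interp_of_mem_verticalClosedStrip' (f := G) (z := s)
    (a := C2 * H₁) (b := C2 * H₂) (l := a) (u := b) hab ⟨hs1, hs2⟩
    hGd.diffContOnCl hbdd (hbd a H₁ (by rw [abs_le]; constructor <;> linarith) hH1 h1 h3)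
    (hbd b H₂ (by rw [abs_le]; constructor <;> linarith) hH2 h2 h4)
  have hba : 0 < b - a := by linarith
  obtain ⟨θ, hθ⟩ : ∃ θ : ℝ, θ = (b - s.re) / (b - a) := ⟨_, rfl⟩
  have e2 : (s.re - a) / (b - a) = 1 - θ := by
    rw [hθ]
    field_simp
    ring
  have e1 : 1 - (s.re - a) / (b - a) = θ := by rw [e2]; ring
  rw [e1, e2] at hfin
  rw [← hθ, e2]
  have hC20 : 0 < C2 := by linarith
  have e3 : (C2 * H₁) ^ θ * (C2 * H₂) ^ (1 - θ) = C2 * (H₁ ^ θ * H₂ ^ (1 - θ)) := by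
    rw [Real.mul_rpow hC20.le (by linarith), Real.mul_rpow hC20.le (by linarith), mul_mul_mul_comm,
      ← Real.rpow_add hC20, add_sub_cancel, Real.rpow_one]
  rw [e3] at hfin
  refine le_trans ?_ hfin
  rw [hGn, hst, sub_self]
  have e5 : 1 ≤ Real.exp (s.re ^ 2 - 0 ^ 2) := Real.one_le_exp (by
    have := sq_nonneg s.re
    linarith)
  exact le_mul_of_one_le_right (norm_nonneg _) e5

end Pool.Agent.T3h90.CI
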