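import Pool.Agent.N846.HU.CoreS
import Pool.Agent.N846.LV.Lvd

/-! Large values of the mollifier on the critical line. -/

set_option autoImplicit false

namespace Pool.Agent.T3h90.CI

open Filter Topology Complex MeasureTheory Set NumberField IsDedekindDomain
open Pool.Agent.TH949.LT (TT Lam VV VV_nonneg VV_le)
open Pool.Agent.N846.DT (PairF co Uc co_abs summ_mono' summ_cs Lam_nonneg half_exp)
open Pool.Agent.N846.DU (VX LV Nv logRS RS GLFamily Rep LV_nonneg one_le_cond S_LEFT S_DIAG)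
open Pool.Agent.N846.LM (Twists)
open Pool.Agent.N846.ZD (Ph Maj Supp S_POW S_CONV S_BLOCK cut_summ absorb MM)
open Pool.Agent.N846.LV (cut b1 b1_maj cut_supp)
open Pool.Agent.N846.LV.Lvd_ (pigeon)
open Pool.Agent.N846.HU (S_DET S_PL core_sel)

theorem MM_eq {X : Type} (L : X → ℝ) (x : ℝ) (u w : X → ℂ) (s : ℂ) :
    MM L x u w s = ∑' l : TT X, Uc u l * b1 L (fun z => -w z) x l * cexp (-(s * Lam L l)) := by
  unfold MM
  refine tsum_congr fun l => ?_
  unfold b1 Pool.Agent.N846.LV.cw co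
  split_ifs
  · ring
  · ring

theorem maj_neg {X : Type} {w : X → ℂ} {k : ℕ} {b : TT X → ℂ} (h : Maj (fun z => -w z) k b) : Maj w k b := by
  intro l
  refine (h l).trans (le_of_eq ?_)
  congr 2
  unfold Uc
  rw [norm_prod, norm_prod]
  simp only [norm_neg]

/-- a large value of the mollifier gives a large block -/
theorem mol_block {X : Type} {u w : X → ℂ} {L : X → ℝ} {a x V : ℝ} {s : ℂ} (hL : ∀ z, 0 ≤ L z) (hx : 0 ≤ x)
    (hs : Summable fun z => ‖u z‖ * ‖w z‖ * Real.exp (-(a * L z))) (hV : 0 < V) (h : V ≤ ‖MM L x u w s‖) :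
    ∃ r : ℕ, (r : ℝ) ≤ x ∧ V ≤ (x + 1) * ‖Ph L (cut L (b1 L (fun z => -w z) x) r) u s‖ := by
  have hsn : Summable fun z => ‖u z‖ * ‖-w z‖ * Real.exp (-(a * L z)) := by simpa only [norm_neg] using hs
  have hb1 : Maj (fun z => -w z) 1 (b1 L (fun z => -w z) x) := by
    refine Pool.Agent.N846.LV.maj_le (Pool.Agent.N846.LV.cw_maj _) fun l => ?_
    unfold b1
    split_ifs
    · exact le_rfl
    · rw [norm_zero]
      exact norm_nonneg _
  have hS : Supp L (b1 L (fun z => -w z) x) 0 x := by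
    intro l hl
    refine ⟨Lam_nonneg hL l, ?_⟩
    by_contra hlt
    apply hl
    unfold b1
    rw [if_neg hlt]
  have hsum := cut_summ hL hsn hb1 hS s
  rw [MM_eq] at h
  obtain ⟨r, hr, hr2⟩ := pigeon (Λ := Lam L) hsum.norm (⌊x⌋₊ + 1) (τ := 0) hV (by
    refine le_of_eq ?_
    refine (tsum_congr fun l => ?_).trans tsum_zero
    split_ifs with h1
    · have h2 : x < Lam L l := by
        have h3 := Nat.lt_floor_add_one x
        have h4 : ((⌊x⌋₊ + 1 : ℕ) : ℝ) ≤ (⌊Lam L l⌋₊ : ℝ) := by exact_mod_cast h1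
        have h5 := Nat.floor_le (Lam_nonneg hL l)
        push_cast at h4
        linarith
      unfold b1
      rw [if_neg (not_le.2 h2)]
      simp
    · rfl) (by rw [add_zero]; exact h)
  refine ⟨r, ?_, ?_⟩
  · have h1 : r ≤ ⌊x⌋₊ := by omega
    have h2 : (r : ℝ) ≤ (⌊x⌋₊ : ℝ) := by exact_mod_cast h1
    exact h2.trans (Nat.floor_le hx)
  · have e1 : (∑' l : TT X, if ⌊Lam L l⌋₊ = r then
        Uc u l * b1 L (fun z => -w z) x l * cexp (-(s * Lam L l)) else 0) =
        Ph L (cut L (b1 L (fun z => -w z) x) r) u s := by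
      unfold Ph
      refine tsum_congr fun l => ?_
      unfold cut
      split_ifs
      · rfl
      · ring
    rw [e1] at hr2
    refine hr2.trans (mul_le_mul_of_nonneg_right ?_ (norm_nonneg _))
    push_cast
    linarith [Nat.floor_le hx]

/-- large values of the mollifier -/
theorem mol_large (hPow : S_POW) (hConv : S_CONV) (hBl : S_BLOCK) (hL : S_LEFT) (hDi : S_DIAG)
    (hDet : S_DET) (hPl : S_PL)
    (K : Type) [Field K] [NumberField K] (n N n' N' N'' : ℕ) (hn : 1 ≤ n) {ε : ℝ} (hε : 0 < ε) :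
    ∃ E₀ : ℝ, 1 ≤ E₀ ∧
    ∀ (ι : Type) [Fintype ι] (S : ι → Finset (HeightOneSpectrum (𝓞 K)))
      (α : ι → HeightOneSpectrum (𝓞 K) → Fin n → ℂ) (u : ι → VX K → ℂ) (q : ι → ι → ℝ) (κ : ι → ι → Fin N → ℂ)
      (S' : Finset (HeightOneSpectrum (𝓞 K))) (α' : HeightOneSpectrum (𝓞 K) → Fin n' → ℂ) (w : VX K → ℂ) (q' : ℝ)
      (κ' : Fin N'' → ℂ) (qs : ι → ℝ) (μ : ι → Fin N' → ℂ) (L : ι → ℂ → ℂ),
      GLFamily n N S α u q κ → Twists n' N' N'' u S' α' w q' κ' qs μ L →
      ∀ (t : ι → ℝ) (T C Q Q' x : ℝ), 0 ≤ T → 1 ≤ C → 1 ≤ Q → q' * ∏ j, (1 + ‖κ' j‖) ≤ Q' →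
        E₀ ≤ C * Q * Q' → (∀ f, ∏ v ∈ S f, Nv v ≤ C * Q * Q') →
        (∀ f, qs f * ∏ j, (1 + ‖μ f j + t f * I‖) ≤ C) →
        (∀ f g, q f g * ∏ j, (1 + ‖κ f g j + (t f - t g) * I‖) ≤ Q) →
        Real.log C ≤ 2 * x → Real.log Q ≤ x → x ≤ 2 * Real.log (C * Q * Q') →
        (∀ f, Real.exp (ε * Real.log (C * Q * Q') + T) ≤ ‖MM LV x (u f) w (1 / 2 + t f * I)‖) →
        (Fintype.card ι : ℝ) ≤ Real.exp (ε * Real.log (C * Q * Q') + x - 2 * T) := by
  obtain ⟨c, E₁, hc0, hc1, hcε, hE₁1, hsel⟩ := core_sel hPow hConv hBl hL hDi hDet hPl K n N n' N' N'' 1 hn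
    (ε := ε / 5) (by positivity)
  obtain ⟨E₂, hE₂1, hE₂⟩ := absorb (η := ε) hε 2
  refine ⟨max E₁ E₂, hE₁1.trans (le_max_left _ _), ?_⟩
  intro ι _ S α u q κ S' α' w q' κ' qs μ L h hT t T C Q Q' x hT0 hC hQ hcQ' hGE hram hcC hcQ hxC hxQ hxG hlarge
  have hGE1 : E₁ ≤ C * Q * Q' := (le_max_left _ _).trans hGE
  have hGE2 : E₂ ≤ C * Q * Q' := (le_max_right _ _).trans hGE
  have hC0 : 0 < C := by linarith
  have hQ0 : 0 < Q := by linarith
  have hQ'1 : 1 ≤ Q' := by
    have h2 := one_le_cond (κ := κ') hT.self.one_le 0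
    simp only [add_zero] at h2
    linarith
  have hQ'0 : 0 < Q' := by linarith
  have hG1 : 1 ≤ C * Q * Q' := hE₁1.trans hGE1
  have hG0 : 0 < C * Q * Q' := by linarith
  have hM0 : 0 ≤ Real.log (C * Q * Q') := Real.log_nonneg hG1
  have hx0 : 0 ≤ x := (Real.log_nonneg hQ).trans hxQ
  obtain ⟨M, hM⟩ : ∃ M, M = Real.log (C * Q * Q') := ⟨_, rfl⟩
  have hQQM : Real.log Q + Real.log Q' ≤ M := by
    rw [hM, ← Real.log_mul hQ0.ne' hQ'0.ne']
    refine Real.log_le_log (by positivity) ?_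
    calc Q * Q' = 1 * (Q * Q') := (one_mul _).symm
      _ ≤ C * (Q * Q') := mul_le_mul_of_nonneg_right hC (by positivity)
      _ = _ := by ring
  have hCM : Real.log C ≤ M := by
    rw [hM]
    refine Real.log_le_log hC0 ?_
    calc C = C * 1 := (mul_one _).symm
      _ ≤ C * (Q * Q') := mul_le_mul_of_nonneg_left (by nlinarith) hC0.le
      _ = _ := by ring
  have hCe : C ≤ Real.exp (2 * x) := (Real.log_le_iff_le_exp hC0).1 hxC
  have he1 : 1 ≤ Real.exp (2 * x) := hC.trans hCe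
  have hGG : C * Q * Q' ≤ Real.exp (2 * x) * Q * Q' := by
    have := mul_le_mul_of_nonneg_right hCe (by positivity : 0 ≤ Q * Q')
    calc C * Q * Q' = C * (Q * Q') := by ring
      _ ≤ _ := this
      _ = _ := by ring
  have hlogG : Real.log (Real.exp (2 * x) * Q * Q') = 2 * x + (Real.log Q + Real.log Q') := by
    rw [Real.log_mul (by positivity) hQ'0.ne', Real.log_mul (by positivity) hQ0.ne', Real.log_exp]
    ring
  have hx1 : x + 1 ≤ Real.exp (ε * M) := by
    have h1 := (hE₂ _ hGE2).2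
    rw [← hM] at h1 hxG
    linarith
  have hwsum : Summable fun x => ‖w x‖ ^ 2 * Real.exp (-((1 + 1) * LV x)) := hT.rep.summable _ (by norm_num)
  have husum : ∀ f, Summable fun x => ‖u f x‖ ^ 2 * Real.exp (-((1 + 1) * LV x)) := fun f =>
    (h.rep f).summable _ (by norm_num)
  have huw : ∀ f, Summable fun v => ‖u f v‖ * ‖w v‖ * Real.exp (-((1 + 1) * LV v)) := fun f =>
    summ_cs (husum f) hwsum
  have hb := fun f => mol_block (L := LV) (s := 1 / 2 + t f * I) LV_nonneg hx0 (huw f)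
    (Real.exp_pos (ε * Real.log (C * Q * Q') + T)) (hlarge f)
  choose rr hrr1 hrr2 using hb
  have hfin := hsel ι S α u q κ S' α' w q' κ' qs μ L h hT t T (Real.exp (2 * x)) Q Q' 0 hT0 he1 hQ hcQ'
    (hGE1.trans hGG) (fun f => (hram f).trans hGG) (fun f => (hcC f).trans hCe) hcQ le_rfl
    (by
      have : 0 ≤ Real.log (Real.exp (2 * x) * Q * Q') := Real.log_nonneg (hG1.trans hGG)
      linarith)
    Unit (fun _ r => cut LV (b1 LV (fun z => -w z) x) r) (fun _ => ()) rr (fun f => 1 / 2 + t f * I)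
    (by simp) (fun _ r => maj_neg (b1_maj LV _ x r)) (fun _ r => cut_supp LV_nonneg _ r)
    (fun f => by
      have h0 : 0 ≤ Real.log Q + Real.log Q' := add_nonneg (Real.log_nonneg hQ) (Real.log_nonneg hQ'1)
      rw [hlogG]
      linarith [hrr1 f])
    (fun f => by simp) (fun f => by simp; exact hc0.le) (fun f => by simp)
    (fun f => by
      rw [Real.log_exp, max_eq_right (by linarith [hrr1 f]), add_zero]
      have h1 := hrr2 f
      have h2 : Real.exp T * (x + 1) ≤ Real.exp (ε * Real.log (C * Q * Q') + T) := by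
        rw [Real.exp_add, mul_comm (Real.exp (ε * Real.log (C * Q * Q')))]
        refine mul_le_mul_of_nonneg_left ?_ (Real.exp_pos _).le
        rw [← hM]
        exact hx1
      have h3 := h2.trans h1
      rw [mul_comm (Real.exp T)] at h3
      exact le_of_mul_le_mul_left h3 (by linarith))
  refine hfin.trans (Real.exp_le_exp.2 ?_)
  rw [hlogG, Real.log_exp, ← hM]
  rw [← hM] at hxG
  have h1 : max (((1 : ℕ) : ℝ) * (2 * x / 2)) (Real.log Q) = x := by
    rw [Nat.cast_one, one_mul, mul_div_cancel_left₀ x (by norm_num), max_eq_left hxQ]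
  rw [h1]
  have h2 : ε / 5 * (2 * x + (Real.log Q + Real.log Q')) ≤ ε / 5 * (5 * M) :=
    mul_le_mul_of_nonneg_left (by linarith) (by positivity)
  push_cast
  linarith

end Pool.Agent.T3h90.CI
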