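import Mathlib

/-! The choice of the parameters. -/

set_option autoImplicit false

namespace Pool.Agent.T3h90.CI

/-- the exponent -/
noncomputable def ex (j : ℕ) (σ : ℝ) : ℝ := 2 * (1 - σ) * (j + 1) / (j + 2 - 2 * σ)

/-- the length of the detecting sum, in units of `log Q` -/
noncomputable def th (j : ℕ) (σ : ℝ) : ℝ := (j + 1) / (j + 2 - 2 * σ)

theorem den_pos {j : ℕ} (hj : 1 ≤ j) {σ : ℝ} (hσ1 : σ ≤ 1) : 0 < (j : ℝ) + 2 - 2 * σ := by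
  have : (1 : ℝ) ≤ j := by exact_mod_cast hj
  linarith

theorem th_nonneg {j : ℕ} (hj : 1 ≤ j) {σ : ℝ} (hσ1 : σ ≤ 1) : 0 ≤ th j σ :=
  div_nonneg (by positivity) (den_pos hj hσ1).le

theorem th_le {j : ℕ} (hj : 1 ≤ j) {σ : ℝ} (hσ1 : σ ≤ 1) : th j σ ≤ 2 := by
  unfold th
  have : (1 : ℝ) ≤ j := by exact_mod_cast hj
  rw [div_le_iff₀ (den_pos hj hσ1)]
  linarith

theorem th_one {j : ℕ} (hj : 1 ≤ j) {σ : ℝ} (hσ : 1 / 2 ≤ σ) (hσ1 : σ ≤ 1) : 1 ≤ th j σ := by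
  unfold th
  rw [le_div_iff₀ (den_pos hj hσ1)]
  linarith

theorem ex_th (j : ℕ) (σ : ℝ) : (2 - 2 * σ) * th j σ = ex j σ := by
  unfold th ex
  ring

theorem ex_two {j : ℕ} (hj : 1 ≤ j) {σ : ℝ} (hσ1 : σ ≤ 1) :
    1 - 2 * j * ((σ - 1 / 2) * th j σ) / (j + 1) = ex j σ := by
  unfold th ex
  have h1 := (den_pos hj hσ1).ne'
  have h2 : (j : ℝ) + 1 ≠ 0 := by positivity
  field_simp
  ring

theorem ex_nonneg {j : ℕ} (hj : 1 ≤ j) {σ : ℝ} (hσ1 : σ ≤ 1) : 0 ≤ ex j σ := by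
  rw [← ex_th]
  exact mul_nonneg (by linarith) (th_nonneg hj hσ1)

theorem ex_le_one {j : ℕ} (hj : 1 ≤ j) {σ : ℝ} (hσ : 1 / 2 ≤ σ) (hσ1 : σ ≤ 1) : ex j σ ≤ 1 := by
  rw [← ex_two hj hσ1]
  have : 0 ≤ 2 * j * ((σ - 1 / 2) * th j σ) / (j + 1) := by
    have := th_nonneg hj hσ1
    have h2 : 0 ≤ σ - 1 / 2 := by linarith
    positivity
  linarith

/-- the small parameters -/
theorem pars {ε : ℝ} (hε : 0 < ε) (j N N' : ℕ) : ∃ e₀ e₁ a₁ a₂ c a η σ₀ : ℝ, 0 < e₀ ∧ e₀ ≤ 1 ∧ e₀ ≤ ε ∧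
    0 < e₁ ∧ 32 * (j + 1) * e₁ = e₀ ∧ 0 < a₁ ∧ 16 * (j + 1) * a₁ = e₀ ∧ 0 < a₂ ∧ 2 * (N + N' + 1) * a₂ = a₁ ∧
    0 < c ∧ 120 * c = e₀ ∧ 2 ≤ a ∧ 3 / (a - 1) ≤ e₀ / 8 ∧ 0 < η ∧ 14 * 16 * (j + 1) * η = e₀ ∧ σ₀ = 1 / 2 + 3 / a₁ := by
  obtain ⟨e₀, he₀⟩ : ∃ e₀ : ℝ, e₀ = min 1 ε := ⟨_, rfl⟩
  have h0 : 0 < e₀ := by rw [he₀]; exact lt_min one_pos hε
  have h1 : e₀ ≤ 1 := by rw [he₀]; exact min_le_left _ _
  have hj : (0 : ℝ) < j + 1 := by positivity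
  refine ⟨e₀, e₀ / (32 * (j + 1)), e₀ / (16 * (j + 1)), e₀ / (16 * (j + 1)) / (2 * (N + N' + 1)), e₀ / 120,
    1 + 24 / e₀, e₀ / (14 * 16 * (j + 1)), 1 / 2 + 3 / (e₀ / (16 * (j + 1))), h0, h1,
    by rw [he₀]; exact min_le_right _ _, by positivity, by field_simp, by positivity, by field_simp,
    by positivity, by field_simp, by positivity, by ring, ?_, ?_, by positivity, by field_simp, rfl⟩
  · have : 1 ≤ 24 / e₀ := by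
      rw [le_div_iff₀ h0]
      linarith
    linarith
  · rw [add_sub_cancel_left]
    rw [div_le_div_iff₀ (by positivity) (by norm_num)]
    have : e₀ * (24 / e₀) = 24 := by field_simp
    rw [this]
    norm_num

end Pool.Agent.T3h90.CI
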