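import Pool.Agent.T3h90.CI.Mid

/-! Universal families. -/

set_option autoImplicit false

namespace Pool.Agent.T3h90.CI

open Filter Topology Complex MeasureTheory Set NumberField IsDedekindDomain
open Pool.Agent.N846.DU (VX LV Nv logRS RS GLFamily Rep LV_nonneg one_le_cond shift_cond shift_cond' S_LEFT S_DIAG)
open Pool.Agent.N846.LM (Twists cond_shift)
open Pool.Agent.N846.ZD (S_POW S_MOLL S_MB S_CONV S_BLOCK S_CVX S_TC logpow)
open Pool.Agent.N846.LV (S_LVD)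
open Pool.Agent.N846.HU (S_DET S_PL twists_sub)

/-- the exponent of the exceptional set in a universal family -/
theorem ex_univ {n : ℕ} (hn : 1 ≤ n) {σ : ℝ} (hσ1 : σ ≤ 1) :
    2 * n * ex (4 * n) σ = 2 * n * (4 * n + 1) * (1 - σ) / (2 * n + 1 - σ) := by
  unfold ex
  have hn1 : (1 : ℝ) ≤ n := by exact_mod_cast hn
  have h1 : (2 * n + 1 - σ : ℝ) ≠ 0 := by linarith
  have h2 : ((4 * n : ℕ) : ℝ) + 2 - 2 * σ = 2 * (2 * n + 1 - σ) := by
    push_cast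
    ring
  rw [h2, ← mul_div_assoc, div_eq_div_iff (mul_ne_zero two_ne_zero h1) h1]
  push_cast
  ring

/-- the numerical range -/
theorem range_n {n : ℕ} (hn : 1 ≤ n) {σ : ℝ} (hσ : (2 * (n : ℝ) - 1) * (3 * n + 1) / (8 * n ^ 2 + n - 1) < σ)
    (hσ1 : σ ≤ 1) : 2 * n * (4 * n + 1) * (1 - σ) / (2 * n + 1 - σ) < (n : ℝ) + 1 := by
  have hn1 : (1 : ℝ) ≤ n := by exact_mod_cast hn
  rw [div_lt_iff₀ (by nlinarith)] at hσ
  rw [div_lt_iff₀ (by linarith)]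
  nlinarith

/-- universal families -/
theorem univ_set (hPow : S_POW) (hMo : S_MOLL) (hMb : S_MB) (hConv : S_CONV) (hBl : S_BLOCK) (hL : S_LEFT)
    (hDi : S_DIAG) (hLvd : S_LVD) (hDet : S_DET) (hPl : S_PL) (hCv : S_CVX) (hTc : S_TC)
    (K : Type) [Field K] [NumberField K] (n N n' N' N'' : ℕ) (hn : 1 ≤ n) {σ ε : ℝ} (hσ : 1 / 2 < σ)
    (hσ1 : σ ≤ 1) (hε : 0 < ε) (B Q' : ℝ) (hB : 1 ≤ B) (hQ' : 1 ≤ Q') : ∃ A c : ℝ, 1 ≤ A ∧ 0 < c ∧
    ∀ (ι : Type) (S : ι → Finset (HeightOneSpectrum (𝓞 K)))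
      (α : ι → HeightOneSpectrum (𝓞 K) → Fin n → ℂ) (u : ι → VX K → ℂ) (q : ι → ι → ℝ) (κ : ι → ι → Fin N → ℂ)
      (S' : Finset (HeightOneSpectrum (𝓞 K))) (α' : HeightOneSpectrum (𝓞 K) → Fin n' → ℂ) (w : VX K → ℂ) (q' : ℝ)
      (κ' : Fin N'' → ℂ) (qs : ι → ℝ) (μ : ι → Fin N' → ℂ) (L : ι → ℂ → ℂ) (C : ι → ℝ),
      GLFamily n N S α u q κ → Twists n' N' N'' u S' α' w q' κ' qs μ L → q' * ∏ j, (1 + ‖κ' j‖) ≤ Q' →
      (∀ f, qs f * ∏ j, (1 + ‖μ f j‖) ≤ C f) → (∀ f, ∏ v ∈ S f, Nv v ≤ C f) →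
      (∀ f g, q f g * ∏ j, (1 + ‖κ f g j‖) ≤ B * (C f * C g) ^ n) →
      ∀ X : ℝ, A ≤ X → ∃ E : Set ι, E.Finite ∧
        (E.ncard : ℝ) ≤ X ^ (2 * n * (4 * n + 1) * (1 - σ) / (2 * n + 1 - σ) + ε) ∧
        ∀ f, C f ≤ X → f ∉ E → ∀ s : ℂ, |s.im| ≤ X ^ c →
          (σ ≤ s.re → X ^ (-ε) ≤ ‖L f s‖ ∧ ‖L f s‖ ≤ X ^ ε) ∧
          (1 / 2 ≤ s.re → s.re ≤ σ → ‖L f s‖ ≤ X ^ (n * (σ - s.re) / (2 * n + 1 - σ) + ε)) := by
  have hn1 : (1 : ℝ) ≤ n := by exact_mod_cast hn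
  have hN0 : (0 : ℝ) ≤ N := Nat.cast_nonneg N
  have hN'0 : (0 : ℝ) ≤ N' := Nat.cast_nonneg N'
  obtain ⟨m, hm⟩ : ∃ m : ℝ, m = ε / 3 := ⟨_, rfl⟩
  have hm0 : 0 < m := by rw [hm]; positivity
  obtain ⟨c, hc⟩ : ∃ c : ℝ, c = m / (N + 2 * n * N' + N' + 1) := ⟨_, rfl⟩
  have hc0 : 0 < c := by rw [hc]; positivity
  have hcm : c * (N + 2 * n * N' + N' + 1) = m := by
    rw [hc]
    field_simp
  have hcm1 : c * N' ≤ m := by
    have h1 : 0 ≤ c * (N + 2 * n * N' + 1) := by positivity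
    have h2 : c * (N + 2 * n * N' + N' + 1) = c * (N + 2 * n * N' + 1) + c * N' := by ring
    linarith only [h1, h2, hcm]
  have hcm2 : c * (N + 2 * n * N') ≤ m := by
    have h1 : 0 ≤ c * (N' + 1) := by positivity
    have h2 : c * (N + 2 * n * N' + N' + 1) = c * (N + 2 * n * N') + c * (N' + 1) := by ring
    linarith only [h1, h2, hcm]
  obtain ⟨g₀, hg₀⟩ : ∃ g₀ : ℝ, g₀ = 2 + 2 * n + 2 * m := ⟨_, rfl⟩
  have hg₀0 : 0 < g₀ := by rw [hg₀]; positivity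
  obtain ⟨ε₁, hε₁⟩ : ∃ ε₁ : ℝ, ε₁ = m / g₀ := ⟨_, rfl⟩
  have hε₁0 : 0 < ε₁ := by rw [hε₁]; positivity
  have hgε : g₀ * ε₁ = m := by rw [hε₁]; field_simp
  obtain ⟨A₀, hA₀1, hA₀⟩ := both_set hPow hMo hMb hConv hBl hL hDi hLvd hDet hPl hCv hTc K n N n' N' N'' (4 * n) hn
    (by omega) hσ hσ1 hε₁0
  obtain ⟨K₀, hK₀⟩ : ∃ K₀ : ℝ, K₀ = 3 ^ N' * (3 ^ (N + 2 * n * N') * B) * Q' := ⟨_, rfl⟩
  have h3a : (1 : ℝ) ≤ 3 ^ N' := one_le_pow₀ (by norm_num)
  have h3b : (1 : ℝ) ≤ 3 ^ (N + 2 * n * N') := one_le_pow₀ (by norm_num)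
  have hB0 : 0 < B := by linarith
  have hQ'0 : 0 < Q' := by linarith
  have h3B : 1 ≤ 3 ^ (N + 2 * n * N') * B := one_le_mul_of_one_le_of_one_le h3b hB
  have hK₀B : 3 ^ (N + 2 * n * N') * B ≤ K₀ := by
    rw [hK₀]
    have h1 : 3 ^ (N + 2 * n * N') * B ≤ 3 ^ N' * (3 ^ (N + 2 * n * N') * B) := le_mul_of_one_le_left (by positivity) h3a
    exact h1.trans (le_mul_of_one_le_right (by positivity) hQ')
  have hK₀0 : 0 < K₀ := by linarith
  refine ⟨max A₀ (max K₀ (K₀ ^ (1 / m))), c, hA₀1.trans (le_max_left _ _), hc0, ?_⟩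
  intro ι S α u q κ S' α' w q' κ' qs μ L C h hT hcQ' hC1 hS1 hC2 X hX
  have hXA : A₀ ≤ X := (le_max_left _ _).trans hX
  have hXK : K₀ ≤ X := ((le_max_left _ _).trans (le_max_right _ _)).trans hX
  have hXm : K₀ ≤ X ^ m := small_pow hK₀0 hm0 (((le_max_right _ _).trans (le_max_right _ _)).trans hX)
  have hX1 : 1 ≤ X := hA₀1.trans hXA
  have hX0 : 0 < X := by linarith
  have hZ1 : 1 ≤ X ^ c := Real.one_le_rpow hX1 hc0.le
  have hq1 : ∀ f g, 1 ≤ q f g := by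
    intro f g
    by_cases hfg : f = g
    · rw [hfg]
      exact (h.self g).one_le
    · exact (h.pair f g hfg).one_le
  have hC1' : ∀ f, 1 ≤ C f := fun f => by
    have h1 := one_le_cond (κ := μ f) (hT.rs f).one_le 0
    simp only [add_zero] at h1
    exact h1.trans (hC1 f)
  obtain ⟨Z, hZ⟩ : ∃ Z : ℝ, Z = 3 * X ^ c := ⟨_, rfl⟩
  have hZ3 : 1 ≤ Z := by rw [hZ]; linarith
  obtain ⟨Cx, hCx⟩ : ∃ Cx : ℝ, Cx = Z ^ N' * X := ⟨_, rfl⟩
  obtain ⟨Qx, hQx⟩ : ∃ Qx : ℝ, Qx = Z ^ (N + 2 * n * N') * (B * (X * X) ^ n) := ⟨_, rfl⟩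
  have hXX : 1 ≤ (X * X) ^ n := one_le_pow₀ (one_le_mul_of_one_le_of_one_le hX1 hX1)
  have hBX : 1 ≤ B * (X * X) ^ n := one_le_mul_of_one_le_of_one_le hB hXX
  have hZN : 1 ≤ Z ^ (N + 2 * n * N') := one_le_pow₀ hZ3
  have hZN' : 1 ≤ Z ^ N' := one_le_pow₀ hZ3
  have hCx1 : X ≤ Cx := by rw [hCx]; exact le_mul_of_one_le_left hX0.le hZN'
  have hQx1 : 1 ≤ Qx := by rw [hQx]; exact one_le_mul_of_one_le_of_one_le hZN hBX
  have hCx0 : 0 < Cx := by linarith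
  have hQx0 : 0 < Qx := by linarith
  have hXG : X ≤ Cx * Qx * Q' := by
    have h1 : Cx ≤ Cx * Qx := le_mul_of_one_le_right hCx0.le hQx1
    have h2 : Cx * Qx ≤ Cx * Qx * Q' := le_mul_of_one_le_right (by positivity) hQ'
    linarith
  have hG0 : 0 < Cx * Qx * Q' := by positivity
  have hG1 : 1 ≤ Cx * Qx * Q' := hX1.trans hXG
  have hCxX : Cx = 3 ^ N' * X ^ (1 + c * N') := by
    rw [hCx, hZ, mul_pow, ← Real.rpow_natCast (X ^ c), ← Real.rpow_mul hX0.le, Real.rpow_add hX0, Real.rpow_one]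
    ring
  have hQxX : Qx = (3 ^ (N + 2 * n * N') * B) * X ^ (2 * n + c * (N + 2 * n * N')) := by
    have e1 : (X * X) ^ n = X ^ (2 * (n : ℝ)) := by
      rw [← sq, ← pow_mul, ← Real.rpow_natCast]
      push_cast
      rfl
    have e2 : (X ^ c) ^ (N + 2 * n * N') = X ^ (c * (N + 2 * n * N')) := by
      rw [← Real.rpow_natCast (X ^ c), ← Real.rpow_mul hX0.le]
      push_cast
      rfl
    rw [hQx, hZ, mul_pow, e1, e2, Real.rpow_add hX0]
    ring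
  have hGX : Cx * Qx * Q' ≤ X ^ g₀ := by
    have e1 : Cx * Qx * Q' = K₀ * (X ^ (1 + c * N') * X ^ (2 * n + c * (N + 2 * n * N'))) := by
      rw [hCxX, hQxX, hK₀]
      ring
    rw [e1, ← Real.rpow_add hX0]
    calc _ ≤ X ^ (1 : ℝ) * X ^ (1 + c * N' + (2 * n + c * (N + 2 * n * N'))) := by
          refine mul_le_mul_of_nonneg_right ?_ (by positivity)
          rw [Real.rpow_one]
          exact hXK
      _ = X ^ (1 + (1 + c * N' + (2 * n + c * (N + 2 * n * N')))) := (Real.rpow_add hX0 _ _).symm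
      _ ≤ _ := by
          refine Real.rpow_le_rpow_of_exponent_le hX1 ?_
          rw [hg₀]
          linarith
  have hGm : (Cx * Qx * Q') ^ ε₁ ≤ X ^ m := by
    calc _ ≤ (X ^ g₀) ^ ε₁ := Real.rpow_le_rpow hG0.le hGX hε₁0.le
      _ = X ^ m := by rw [← Real.rpow_mul hX0.le, hgε]
  have hQe : ∀ e : ℝ, 0 ≤ e → e ≤ 1 → Qx ^ e ≤ X ^ (2 * n * e + 2 * m) := by
    intro e he0 he1
    rw [hQxX, Real.mul_rpow (by positivity) (by positivity), ← Real.rpow_mul hX0.le]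
    calc _ ≤ X ^ m * X ^ (2 * n * e + m) := by
          refine mul_le_mul ?_ ?_ (by positivity) (by positivity)
          · calc (3 ^ (N + 2 * n * N') * B) ^ e ≤ (3 ^ (N + 2 * n * N') * B) ^ (1 : ℝ) :=
                  Real.rpow_le_rpow_of_exponent_le h3B he1
              _ = 3 ^ (N + 2 * n * N') * B := Real.rpow_one _
              _ ≤ X ^ m := hK₀B.trans hXm
          · refine Real.rpow_le_rpow_of_exponent_le hX1 ?_
            have h1 : c * (N + 2 * n * N') * e ≤ c * (N + 2 * n * N') := mul_le_of_le_one_right (by positivity) he1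
            have h2 : (2 * n + c * (N + 2 * n * N')) * e = 2 * n * e + c * (N + 2 * n * N') * e := by ring
            rw [h2]
            linarith
      _ = _ := by
          rw [← Real.rpow_add hX0]
          congr 1
          ring
  have hpow : Cx ^ (4 * n) ≤ Qx ^ 2 := by
    have e1 : Cx ^ (4 * n) = Z ^ (2 * (2 * n * N')) * ((X * X) ^ n) ^ 2 := by
      rw [hCx, mul_pow, ← pow_mul]
      congr 1
      · congr 1
        ring
      · rw [← sq, ← pow_mul, ← pow_mul]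
        congr 1
        ring
    have e2 : Qx ^ 2 = Z ^ (2 * (N + 2 * n * N')) * (B * (X * X) ^ n) ^ 2 := by
      rw [hQx, mul_pow, ← pow_mul]
      congr 2
      ring
    rw [e1, e2]
    refine mul_le_mul (pow_le_pow_right₀ hZ3 (by omega)) ?_ (by positivity) (by positivity)
    exact pow_le_pow_left₀ (by positivity) (le_mul_of_one_le_left (by positivity) hB) 2
  obtain ⟨E, hE⟩ : ∃ E : Set ι, E = {f | C f ≤ X ∧ ∃ s : ℂ, |s.im| ≤ X ^ c ∧
      ((σ ≤ s.re ∧ ¬(X ^ (-ε) ≤ ‖L f s‖ ∧ ‖L f s‖ ≤ X ^ ε)) ∨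
        (1 / 2 ≤ s.re ∧ s.re ≤ σ ∧ X ^ (n * (σ - s.re) / (2 * n + 1 - σ) + ε) < ‖L f s‖))} := ⟨_, rfl⟩
  have hch : ∀ f, ∃ s : ℂ, f ∈ E → |s.im| ≤ X ^ c ∧
      ((σ ≤ s.re ∧ ¬(X ^ (-ε) ≤ ‖L f s‖ ∧ ‖L f s‖ ≤ X ^ ε)) ∨
        (1 / 2 ≤ s.re ∧ s.re ≤ σ ∧ X ^ (n * (σ - s.re) / (2 * n + 1 - σ) + ε) < ‖L f s‖)) := by
    intro f
    by_cases hf : f ∈ E
    · have hf' := hf
      rw [hE] at hf'
      obtain ⟨-, s, hs⟩ := hf'
      exact ⟨s, fun _ => hs⟩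
    · exact ⟨0, fun h' => absurd h' hf⟩
  choose s hs using hch
  have hEC : ∀ f ∈ E, C f ≤ X := fun f hf => by
    rw [hE] at hf
    exact hf.1
  have hcond1 : ∀ f ∈ E, qs f * ∏ j, (1 + ‖μ f j + (s f).im * I‖) ≤ Cx := by
    intro f hf
    rw [hCx]
    refine cond_shift (hT.rs f).one_le ?_ ((hC1 f).trans (hEC f hf))
    have h2 : ‖((s f).im : ℂ) * I‖ = |(s f).im| := by simp
    rw [h2, hZ]
    linarith [(hs f hf).1]
  have hcond2 : ∀ f ∈ E, ∀ g ∈ E, q f g * ∏ j, (1 + ‖κ f g j + ((s f).im - (s g).im) * I‖) ≤ Qx := by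
    intro f hf g hg
    have h1 : q f g * ∏ j, (1 + ‖κ f g j + ((s f).im - (s g).im) * I‖) ≤ Z ^ N * (B * (X * X) ^ n) := by
      refine cond_shift (hq1 f g) ?_ ((hC2 f g).trans ?_)
      · have h2 : ‖(((s f).im : ℂ) - (s g).im) * I‖ ≤ |(s f).im| + |(s g).im| := by
          rw [norm_mul, Complex.norm_I, mul_one]
          refine (norm_sub_le _ _).trans ?_
          simp
        rw [hZ]
        linarith [(hs f hf).1, (hs g hg).1]
      · refine mul_le_mul_of_nonneg_left ?_ hB0.le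
        refine pow_le_pow_left₀ ?_ ?_ n
        · exact mul_nonneg (by linarith only [hC1' f]) (by linarith only [hC1' g])
        · exact mul_le_mul (hEC f hf) (hEC g hg) (by linarith [hC1' g]) hX0.le
    refine h1.trans ?_
    rw [hQx]
    exact mul_le_mul_of_nonneg_right (pow_le_pow_right₀ hZ3 (by omega)) (by positivity)
  have hXe : X ^ m ≤ X ^ ε := Real.rpow_le_rpow_of_exponent_le hX1 (by linarith)
  obtain ⟨hfin, hmain⟩ := hA₀ ι S α u q κ S' α' w q' κ' qs μ L h hT E s Cx Qx Q' (hX1.trans hCx1) hQx1 hpow hcQ'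
    (hXA.trans hXG) (fun f hf => ((hS1 f).trans (hEC f hf)).trans hXG) hcond1 hcond2 (fun f hf => by
      rcases (hs f hf).2 with ⟨h1, h2⟩ | ⟨h1, h2, h3⟩
      · refine Or.inl ⟨h1, fun hh => h2 ⟨?_, hh.2.trans (hGm.trans hXe)⟩⟩
        refine le_trans ?_ hh.1
        rw [Real.rpow_neg hX0.le, Real.rpow_neg hG0.le]
        exact inv_anti₀ (by positivity) (hGm.trans hXe)
      · refine Or.inr ⟨h1, h2, lt_of_le_of_lt ?_ h3⟩
        have hd : (0 : ℝ) < 2 * n + 1 - σ := by linarith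
        obtain ⟨e, he⟩ : ∃ e : ℝ, e = (σ - (s f).re) / (((4 * n : ℕ) : ℝ) + 2 - 2 * σ) := ⟨_, rfl⟩
        have hd2 : (0 : ℝ) < ((4 * n : ℕ) : ℝ) + 2 - 2 * σ := by
          push_cast
          linarith
        have he0 : 0 ≤ e := by
          rw [he]
          exact div_nonneg (by linarith) hd2.le
        have he1 : e ≤ 1 := by
          rw [he, div_le_one hd2]
          push_cast
          linarith
        have he2 : 2 * n * e = n * (σ - (s f).re) / (2 * n + 1 - σ) := by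
          rw [he, ← mul_div_assoc, div_eq_div_iff hd2.ne' hd.ne']
          push_cast
          ring
        rw [← he]
        calc _ ≤ X ^ m * X ^ (2 * n * e + 2 * m) := mul_le_mul hGm (hQe e he0 he1) (by positivity) (by positivity)
          _ = X ^ (n * (σ - (s f).re) / (2 * n + 1 - σ) + ε) := by
              rw [← Real.rpow_add hX0, he2]
              congr 1
              rw [hm]
              ring)
  refine ⟨E, hfin, hmain.trans ?_, ?_⟩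
  · calc _ ≤ X ^ m * X ^ (2 * n * ex (4 * n) σ + 2 * m) :=
          mul_le_mul hGm (hQe _ (ex_nonneg (by omega) hσ1) (ex_le_one (by omega) hσ.le hσ1)) (by positivity)
            (by positivity)
      _ = _ := by
          rw [← Real.rpow_add hX0, ex_univ hn hσ1]
          congr 1
          rw [hm]
          ring
  · intro f hfX hfE z hz
    rw [hE] at hfE
    refine ⟨fun h1 => ?_, fun h1 h2 => ?_⟩
    · by_contra hne
      exact hfE ⟨hfX, z, hz, Or.inl ⟨h1, hne⟩⟩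
    · by_contra hne
      exact hfE ⟨hfX, z, hz, Or.inr ⟨h1, h2, not_le.1 hne⟩⟩

end Pool.Agent.T3h90.CI
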