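import Pool.Agent.T3h90.CI.Fin
import Pool.Agent.N846.ZD.Lind
import Pool.Agent.N846.ZD.Lind3

/-! Exceptional values in a half plane. -/

set_option autoImplicit false

namespace Pool.Agent.T3h90.CI

open Filter Topology Complex MeasureTheory Set NumberField IsDedekindDomain
open Pool.Agent.N846.DU (VX LV Nv logRS RS GLFamily Rep LV_nonneg one_le_cond shift_cond shift_cond' S_LEFT S_DIAG)
open Pool.Agent.N846.LM (Twists)
open Pool.Agent.N846.ZD (S_POW S_MOLL S_MB S_CONV S_BLOCK S_CVX S_TC one)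
open Pool.Agent.N846.LV (S_LVD)
open Pool.Agent.N846.HU (S_DET S_PL twists_sub)

theorem below {j : ℕ} (hj : 1 ≤ j) {σ ε : ℝ} (hσ : 1 / 2 < σ) (hσ1 : σ ≤ 1) (hε : 0 < ε) :
    ∃ σ₂ : ℝ, 1 / 2 < σ₂ ∧ σ₂ < σ ∧ ex j σ₂ ≤ ex j σ + ε := by
  have hd := den_pos hj hσ1
  have c1 : ContinuousAt (fun x : ℝ => ex j x) σ := by
    unfold ex
    exact ContinuousAt.div (by fun_prop) (by fun_prop) hd.ne'
  have e1 : ∀ᶠ x in 𝓝 σ, ex j x < ex j σ + ε := c1.eventually_lt_const (by linarith)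
  have e3 : ∀ᶠ x in 𝓝 σ, 1 / 2 < x := eventually_gt_nhds hσ
  have e4 := ((e1.and e3).filter_mono (nhdsWithin_le_nhds (s := Iio σ))).and self_mem_nhdsWithin
  obtain ⟨x, ⟨h1, h3⟩, h4⟩ := e4.exists
  exact ⟨x, h3, h4, h1.le⟩

/-- the conductors of a family after a shift -/
theorem shift_fam {K : Type} [Field K] [NumberField K] {ι : Type} {n N n' N' N'' : ℕ}
    {S : ι → Finset (HeightOneSpectrum (𝓞 K))}
    {α : ι → HeightOneSpectrum (𝓞 K) → Fin n → ℂ} {u : ι → VX K → ℂ} {q : ι → ι → ℝ} {κ : ι → ι → Fin N → ℂ}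
    {S' : Finset (HeightOneSpectrum (𝓞 K))} {α' : HeightOneSpectrum (𝓞 K) → Fin n' → ℂ} {w : VX K → ℂ} {q' : ℝ}
    {κ' : Fin N'' → ℂ} {qs : ι → ℝ} {μ : ι → Fin N' → ℂ} {L : ι → ℂ → ℂ}
    (h : GLFamily n N S α u q κ) (hT : Twists n' N' N'' u S' α' w q' κ' qs μ L) {T : Set ι} {t t' : ι → ℝ}
    {C Q R : ℝ} (hR : 0 ≤ R) (hv : ∀ f ∈ T, |t' f - t f| ≤ R)
    (hcC : ∀ f ∈ T, qs f * ∏ j, (1 + ‖μ f j + t f * I‖) ≤ C)
    (hcQ : ∀ f ∈ T, ∀ g ∈ T, q f g * ∏ j, (1 + ‖κ f g j + (t f - t g) * I‖) ≤ Q) :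
    (∀ f ∈ T, qs f * ∏ j, (1 + ‖μ f j + t' f * I‖) ≤ (1 + R) ^ N' * C) ∧
    (∀ f ∈ T, ∀ g ∈ T, q f g * ∏ j, (1 + ‖κ f g j + (t' f - t' g) * I‖) ≤ (1 + 2 * R) ^ N * Q) := by
  have hq1 : ∀ f g, 1 ≤ q f g := by
    intro f g
    by_cases hfg : f = g
    · rw [hfg]
      exact (h.self g).one_le
    · exact (h.pair f g hfg).one_le
  constructor
  · intro f hf
    have h3 := shift_cond' (κ := μ f) (hT.rs f).one_le (z := (t f : ℂ) * I)
      (w := ((t' f - t f : ℝ) : ℂ) * I) (c := R) (by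
        rw [norm_mul, Complex.norm_I, mul_one, Complex.norm_real, Real.norm_eq_abs]
        exact hv f hf)
    refine le_trans (le_of_eq ?_) (h3.trans (mul_le_mul_of_nonneg_left (hcC f hf) (by positivity)))
    congr 1
    refine Finset.prod_congr rfl fun j _ => ?_
    congr 2
    push_cast
    ring
  · intro f hf g hg
    have h3 := shift_cond' (κ := κ f g) (hq1 f g) (z := ((t f : ℂ) - t g) * I)
      (w := ((t' f - t f - (t' g - t g) : ℝ) : ℂ) * I) (c := 2 * R) (by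
        rw [norm_mul, Complex.norm_I, mul_one, Complex.norm_real, Real.norm_eq_abs]
        refine (abs_sub _ _).trans ?_
        linarith [hv f hf, hv g hg])
    refine le_trans (le_of_eq ?_) (h3.trans (mul_le_mul_of_nonneg_left (hcQ f hf g hg) (by positivity)))
    congr 1
    refine Finset.prod_congr rfl fun j _ => ?_
    congr 2
    push_cast
    ring

/-- a constant is at most a small power of a large number -/
theorem small_pow {A e : ℝ} (hA : 0 < A) (he : 0 < e) {G : ℝ} (hG : A ^ (1 / e) ≤ G) : A ≤ G ^ e := by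
  have h3 : (A ^ (1 / e)) ^ e ≤ G ^ e := Real.rpow_le_rpow (by positivity) hG he.le
  rw [← Real.rpow_mul hA.le, one_div_mul_cancel he.ne', Real.rpow_one] at h3
  exact h3

/-- bookkeeping: larger conductors -/
theorem enlarge {j : ℕ} (hj : 1 ≤ j) {σ ε : ℝ} (hσ : 1 / 2 ≤ σ) (hσ1 : σ ≤ 1) (hε : 0 < ε) {C Q Q' a b D : ℝ}
    (hC : 1 ≤ C) (hQ : 1 ≤ Q) (hQ' : 1 ≤ Q') (ha : 1 ≤ a) (hb : 1 ≤ b) (hD : D ≤ (C * Q * Q') ^ ε) (hab : a * b ≤ D)
    (hε1 : ε ≤ 1) :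
    (a * C * (b * Q) * Q') ^ ε * (b * Q) ^ ex j σ ≤ (C * Q * Q') ^ (3 * ε) * Q ^ ex j σ := by
  have hC0 : 0 < C := by linarith
  have hQ0 : 0 < Q := by linarith
  have hQ'0 : 0 < Q' := by linarith
  have ha0 : 0 < a := by linarith
  have hb0 : 0 < b := by linarith
  have hG0 : 0 < C * Q * Q' := by positivity
  have hbD : b ≤ (C * Q * Q') ^ ε := by
    have : b ≤ a * b := le_mul_of_one_le_left hb0.le ha
    linarith
  have e1 : (a * C * (b * Q) * Q') ^ ε = (a * b) ^ ε * (C * Q * Q') ^ ε := by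
    rw [← Real.mul_rpow (by positivity) hG0.le]
    congr 1
    ring
  have e2 : (a * b) ^ ε ≤ (C * Q * Q') ^ ε := by
    calc (a * b) ^ ε ≤ (a * b) ^ (1 : ℝ) :=
          Real.rpow_le_rpow_of_exponent_le (by nlinarith) hε1
      _ = a * b := Real.rpow_one _
      _ ≤ _ := hab.trans hD
  have e3 : (b * Q) ^ ex j σ ≤ (C * Q * Q') ^ ε * Q ^ ex j σ := by
    rw [Real.mul_rpow hb0.le hQ0.le]
    refine mul_le_mul_of_nonneg_right ?_ (by positivity)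
    calc b ^ ex j σ ≤ b ^ (1 : ℝ) := Real.rpow_le_rpow_of_exponent_le hb (ex_le_one hj hσ hσ1)
      _ = b := Real.rpow_one _
      _ ≤ _ := hbD
  rw [e1]
  calc _ ≤ ((C * Q * Q') ^ ε * (C * Q * Q') ^ ε) * ((C * Q * Q') ^ ε * Q ^ ex j σ) :=
        mul_le_mul (mul_le_mul_of_nonneg_right e2 (by positivity)) e3 (by positivity) (by positivity)
    _ = ((C * Q * Q') ^ ε * (C * Q * Q') ^ ε * (C * Q * Q') ^ ε) * Q ^ ex j σ := by ring
    _ = _ := by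
        rw [← Real.rpow_add hG0, ← Real.rpow_add hG0]
        congr 2
        ring

/-- exceptional values in a half plane -/
theorem val_set (hPow : S_POW) (hMo : S_MOLL) (hMb : S_MB) (hConv : S_CONV) (hBl : S_BLOCK) (hL : S_LEFT)
    (hDi : S_DIAG) (hLvd : S_LVD) (hDet : S_DET) (hPl : S_PL) (hCv : S_CVX) (hTc : S_TC)
    (K : Type) [Field K] [NumberField K] (n N n' N' N'' j : ℕ) (hn : 1 ≤ n) (hj : 1 ≤ j) {σ ε : ℝ} (hσ : 1 / 2 < σ)
    (hσ1 : σ ≤ 1) (hε : 0 < ε) : ∃ A : ℝ, 1 ≤ A ∧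
    ∀ (ι : Type) (S : ι → Finset (HeightOneSpectrum (𝓞 K)))
      (α : ι → HeightOneSpectrum (𝓞 K) → Fin n → ℂ) (u : ι → VX K → ℂ) (q : ι → ι → ℝ) (κ : ι → ι → Fin N → ℂ)
      (S' : Finset (HeightOneSpectrum (𝓞 K))) (α' : HeightOneSpectrum (𝓞 K) → Fin n' → ℂ) (w : VX K → ℂ) (q' : ℝ)
      (κ' : Fin N'' → ℂ) (qs : ι → ℝ) (μ : ι → Fin N' → ℂ) (L : ι → ℂ → ℂ),
      GLFamily n N S α u q κ → Twists n' N' N'' u S' α' w q' κ' qs μ L →
      ∀ (T : Set ι) (s : ι → ℂ) (C Q Q' : ℝ), 1 ≤ C → 1 ≤ Q → j * Real.log C ≤ 2 * Real.log Q →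
        q' * ∏ j, (1 + ‖κ' j‖) ≤ Q' → A ≤ C * Q * Q' → (∀ f ∈ T, ∏ v ∈ S f, Nv v ≤ C * Q * Q') →
        (∀ f ∈ T, σ ≤ (s f).re ∧ ¬((C * Q * Q') ^ (-ε) ≤ ‖L f (s f)‖ ∧ ‖L f (s f)‖ ≤ (C * Q * Q') ^ ε)) →
        (∀ f ∈ T, qs f * ∏ j, (1 + ‖μ f j + (s f).im * I‖) ≤ C) →
        (∀ f ∈ T, ∀ g ∈ T, q f g * ∏ j, (1 + ‖κ f g j + ((s f).im - (s g).im) * I‖) ≤ Q) →
        T.Finite ∧ (T.ncard : ℝ) ≤ (C * Q * Q') ^ ε * Q ^ ex j σ := by
  obtain ⟨e, he⟩ : ∃ e : ℝ, e = min 1 (ε / 4) := ⟨_, rfl⟩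
  have he0 : 0 < e := by rw [he]; exact lt_min one_pos (by positivity)
  have he1 : e ≤ 1 := by rw [he]; exact min_le_left _ _
  have he4 : 4 * e ≤ ε := by
    have : e ≤ ε / 4 := by rw [he]; exact min_le_right _ _
    linarith
  obtain ⟨σ₂, hs1, hs2, hs3⟩ := below hj hσ hσ1 he0
  obtain ⟨A₀, hA₀1, hA₀⟩ := zd_set hPow hMo hMb hConv hBl hL hDi hLvd hDet hPl hCv K n N n' N' N'' j hn hj hs1
    (by linarith) he0
  obtain ⟨A₁, hA₁1, hA₁⟩ := one hL hDi hCv hTc K n N n' N' N'' (σ := σ₂) (σ' := σ) (δ := ε) (by linarith) hs2 hσ1 hε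
  have h3N' : (1 : ℝ) ≤ 3 ^ N' := one_le_pow₀ (by norm_num)
  have h5N : (1 : ℝ) ≤ 5 ^ N := one_le_pow₀ (by norm_num)
  obtain ⟨b, hb⟩ : ∃ b : ℝ, b = 5 ^ N * (3 ^ N') ^ j := ⟨_, rfl⟩
  have h3j : (1 : ℝ) ≤ (3 ^ N') ^ j := one_le_pow₀ h3N'
  have hb5 : (5 : ℝ) ^ N ≤ b := by rw [hb]; exact le_mul_of_one_le_right (by positivity) h3j
  have hb3 : ((3 : ℝ) ^ N') ^ j ≤ b := by rw [hb]; exact le_mul_of_one_le_left (by positivity) h5N
  have hb1 : 1 ≤ b := h5N.trans hb5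
  have hb0 : 0 < b := by linarith
  refine ⟨max (max A₀ A₁) ((3 ^ N' * b) ^ (1 / e)), hA₀1.trans ((le_max_left _ _).trans (le_max_left _ _)), ?_⟩
  intro ι S α u q κ S' α' w q' κ' qs μ L h hT T s C Q Q' hC hQ hjC hcQ' hAG hram hbad hcC hcQ
  have hAG0 : A₀ ≤ C * Q * Q' := ((le_max_left _ _).trans (le_max_left _ _)).trans hAG
  have hAG1 : A₁ ≤ C * Q * Q' := ((le_max_right _ _).trans (le_max_left _ _)).trans hAG
  have hAG2 : (3 ^ N' * b) ^ (1 / e) ≤ C * Q * Q' := (le_max_right _ _).trans hAG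
  have hC0 : 0 < C := by linarith
  have hQ0 : 0 < Q := by linarith
  have hQ'1 : 1 ≤ Q' := by
    have h2 := one_le_cond (κ := κ') hT.self.one_le 0
    simp only [add_zero] at h2
    linarith
  have hQ'0 : 0 < Q' := by linarith
  have hG1 : 1 ≤ C * Q * Q' := hA₁1.trans hAG1
  have hG0 : 0 < C * Q * Q' := by linarith
  -- a zero close to `s f`
  have hch : ∀ f, ∃ ρ : ℂ, f ∈ T → L f ρ = 0 ∧ σ₂ ≤ ρ.re ∧ |ρ.im - (s f).im| ≤ 2 := by
    intro f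
    by_cases hf : f ∈ T
    · by_contra hne
      push Not at hne
      obtain ⟨hre, hb⟩ := hbad f hf
      refine hb ?_
      have hcQf : q f f * ∏ j, (1 + ‖κ f f j‖) ≤ Q := by
        have := hcQ f hf f hf
        simpa only [sub_self, zero_mul, add_zero] using this
      refine hA₁ ι S α u q κ S' α' w q' κ' qs μ L h hT f (s f).im C Q Q' hC hQ hcQ' (hcC f hf) hcQf
        hAG1 ?_ (s f) hre rfl
      intro ρ hρ1 hρ2 hρ3
      obtain ⟨-, h5⟩ := hne ρ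
      exact absurd (h5 hρ3 hρ1.le) (not_lt.2 hρ2.le)
    · exact ⟨0, fun h' => absurd h' hf⟩
  choose ρ hρ using hch
  obtain ⟨hc1, hc2⟩ := shift_fam h hT (T := T) (t := fun f => (s f).im) (t' := fun f => (ρ f).im) (C := C) (Q := Q)
    (R := 2) (by norm_num) (fun f hf => (hρ f hf).2.2) hcC hcQ
  rw [show (1 + 2 : ℝ) = 3 by norm_num] at hc1
  rw [show (1 + 2 * 2 : ℝ) = 5 by norm_num] at hc2
  have hCC : C ≤ 3 ^ N' * C := le_mul_of_one_le_left hC0.le h3N'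
  have hQQ : Q ≤ b * Q := le_mul_of_one_le_left hQ0.le hb1
  have hGG : C * Q * Q' ≤ 3 ^ N' * C * (b * Q) * Q' :=
    mul_le_mul_of_nonneg_right (mul_le_mul hCC hQQ hQ0.le (by positivity)) hQ'0.le
  obtain ⟨hfin, hmain⟩ := hA₀ ι S α u q κ S' α' w q' κ' qs μ L h hT T ρ (3 ^ N' * C) (b * Q) Q' (hC.trans hCC)
    (hQ.trans hQQ) (by
      have e1 : Real.log (3 ^ N' * C) = Real.log (3 ^ N') + Real.log C := Real.log_mul (by positivity) hC0.ne'
      have e2 : Real.log (b * Q) = Real.log b + Real.log Q := Real.log_mul hb0.ne' hQ0.ne'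
      have e3 : (j : ℝ) * Real.log (3 ^ N') ≤ Real.log b := by
        rw [← Real.log_pow]
        exact Real.log_le_log (by positivity) hb3
      have e4 : 0 ≤ Real.log b := Real.log_nonneg hb1
      rw [e1, e2]
      linarith) hcQ' (hAG0.trans hGG) (fun f hf => (hram f hf).trans hGG)
    (fun f hf => ⟨(hρ f hf).1, (hρ f hf).2.1⟩) hc1 (fun f hf g hg => (hc2 f hf g hg).trans
      (mul_le_mul_of_nonneg_right hb5 hQ0.le))
  refine ⟨hfin, hmain.trans ?_⟩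
  have h1 := enlarge hj hs1.le (by linarith) he0 hC hQ hQ'1 h3N' hb1 (small_pow (by positivity) he0 hAG2) le_rfl he1
  refine h1.trans ?_
  have h2 : Q ^ ex j σ₂ ≤ (C * Q * Q') ^ e * Q ^ ex j σ := by
    have h3 : Q ≤ C * Q * Q' := by
      have h1 : Q ≤ C * Q := le_mul_of_one_le_left hQ0.le hC
      exact h1.trans (le_mul_of_one_le_right (by positivity) hQ'1)
    calc Q ^ ex j σ₂ ≤ Q ^ (ex j σ + e) := Real.rpow_le_rpow_of_exponent_le hQ hs3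
      _ = Q ^ e * Q ^ ex j σ := by rw [Real.rpow_add hQ0, mul_comm]
      _ ≤ _ := mul_le_mul_of_nonneg_right (Real.rpow_le_rpow hQ0.le h3 he0.le) (by positivity)
  calc (C * Q * Q') ^ (3 * e) * Q ^ ex j σ₂ ≤ (C * Q * Q') ^ (3 * e) * ((C * Q * Q') ^ e * Q ^ ex j σ) :=
        mul_le_mul_of_nonneg_left h2 (by positivity)
    _ = (C * Q * Q') ^ (4 * e) * Q ^ ex j σ := by
        rw [← mul_assoc, ← Real.rpow_add hG0]
        congr 2
        ring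
    _ ≤ _ := by
        refine mul_le_mul_of_nonneg_right ?_ (by positivity)
        exact Real.rpow_le_rpow_of_exponent_le hG1 he4

end Pool.Agent.T3h90.CI
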